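import Pool.Agent.Helper156.OF.RelAut

set_option autoImplicit false
set_option linter.unusedSectionVars false

namespace Pool.Agent.H846R3.Sq
open Pool.Agent.Helper156.OF

lemma closure_insert_invol {G ι : Type} [Group G] (g : ι → G) (T : Set ι) (b : ι)
    (hc : ∀ l ∈ T, Commute (g b) (g l)) (hs : g b * g b = 1) {x : G}
    (hx : x ∈ Subgroup.closure (g '' insert b T)) :
    x ∈ Subgroup.closure (g '' T) ∨ ∃ c ∈ Subgroup.closure (g '' T), x = c * g b := by
  have hcomm : ∀ c ∈ Subgroup.closure (g '' T), Commute (g b) c := by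
    intro c hc'
    induction hc' using Subgroup.closure_induction with
    | mem x hx => obtain ⟨l, hl, rfl⟩ := hx; exact hc l hl
    | one => exact Commute.one_right _
    | mul x y _ _ h1 h2 => exact h1.mul_right h2
    | inv x _ h => exact h.inv_right
  have hinv : (g b)⁻¹ = g b := inv_eq_of_mul_eq_one_left hs
  induction hx using Subgroup.closure_induction with
  | mem x hx =>
    obtain ⟨l, hl, rfl⟩ := hx
    rcases hl with rfl | hl
    · exact Or.inr ⟨1, one_mem _, (one_mul _).symm⟩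
    · exact Or.inl (Subgroup.subset_closure ⟨l, hl, rfl⟩)
  | one => exact Or.inl (one_mem _)
  | mul x y _ _ h1 h2 =>
    rcases h1 with h1 | ⟨c, hc1, rfl⟩ <;> rcases h2 with h2 | ⟨d, hd1, rfl⟩
    · exact Or.inl (mul_mem h1 h2)
    · exact Or.inr ⟨x * d, mul_mem h1 hd1, (mul_assoc _ _ _).symm⟩
    · refine Or.inr ⟨c * y, mul_mem hc1 h2, ?_⟩
      rw [mul_assoc, mul_assoc, (hcomm y h2).eq]
    · refine Or.inl ?_
      have : c * g b * (d * g b) = c * d := by
        rw [mul_assoc, ← mul_assoc (g b) d, (hcomm d hd1).eq, mul_assoc d, hs, mul_one]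
      rw [this]; exact mul_mem hc1 hd1
  | inv x _ h =>
    rcases h with h | ⟨c, hc1, rfl⟩
    · exact Or.inl (inv_mem h)
    · refine Or.inr ⟨c⁻¹, inv_mem hc1, ?_⟩
      rw [mul_inv_rev, hinv, (hcomm _ (inv_mem hc1)).eq]

section ix

variable {α : Type} [DecidableEq α]

/-- The permutation of the indices underlying a signed permutation. -/
def ix (σ : SP α) (i : α) : α := ((σ : Equiv.Perm (Lt α)) (i, true)).1

lemma ix_eq (σ : SP α) (x : Lt α) : ((σ : Equiv.Perm (Lt α)) x).1 = ix σ x.1 := by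
  obtain ⟨i, b⟩ := x
  cases b
  · have : ((i, false) : Lt α) = nv (i, true) := rfl
    rw [this, SP.map_nv]
    rfl
  · rfl

@[simp] lemma ix_one (i : α) : ix (1 : SP α) i = i := rfl

lemma ix_mul (σ τ : SP α) (i : α) : ix (σ * τ) i = ix σ (ix τ i) := by
  have h : ix (σ * τ) i = ((σ : Equiv.Perm (Lt α)) ((τ : Equiv.Perm (Lt α)) (i, true))).1 := rfl
  rw [h, ix_eq]
  rfl

@[simp] lemma ix_inv_ix (σ : SP α) (i : α) : ix σ⁻¹ (ix σ i) = i := by
  rw [← ix_mul, inv_mul_cancel, ix_one]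

@[simp] lemma ix_ix_inv (σ : SP α) (i : α) : ix σ (ix σ⁻¹ i) = i := by
  rw [← ix_mul, mul_inv_cancel, ix_one]

lemma ix_inj (σ : SP α) {i j : α} (h : ix σ i = ix σ j) : i = j := by
  rw [← ix_inv_ix σ i, h, ix_inv_ix]

lemma ix_fix_inv {S : Set α} {σ : SP α} (h : ∀ i, i ∉ S → ix σ i = i) :
    ∀ i, i ∉ S → ix σ⁻¹ i = i := by
  intro i hi
  apply ix_inj σ
  rw [ix_ix_inv, h i hi]

lemma ix_mem {S : Set α} {σ : SP α} (h : ∀ i, i ∉ S → ix σ i = i) {i : α} (hi : i ∈ S) :
    ix σ i ∈ S := by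
  by_contra hc
  have := h _ hc
  exact hc ((ix_inj σ this).symm ▸ hi)

end ix

/-- Data: a group generated by signed permutations and transvections mod 2. -/
structure Dat {α H : Type} [DecidableEq α] [Group H] (W : SP α →* H) (e : α → α → H)
    (m : H →* Equiv.Perm (α → ZMod 2)) : Prop where
  w : ∀ (σ : SP α) (i j : α), i ≠ j → W σ * e i j * (W σ)⁻¹ = e (ix σ i) (ix σ j)
  sq : ∀ i j, i ≠ j → e i j * e i j = 1
  c1 : ∀ i j k l, i ≠ j → k ≠ l → i ≠ l → k ≠ j → Commute (e i j) (e k l)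
  st : ∀ i j k, i ≠ j → i ≠ k → j ≠ k → e j k * e i j * e j k = e i j * e i k
  br : ∀ i j, i ≠ j → e i j * e j i * e i j = W (sg (i,true) (j,true))
  mw : ∀ (σ : SP α) v i, m (W σ) v (ix σ i) = v i
  me : ∀ i j v, i ≠ j → m (e i j) v = Function.update v i (v i + v j)

namespace Dat

variable {α H : Type} [DecidableEq α] [Fintype α] [Group H] {W : SP α →* H} {e : α → α → H}
    {m : H →* Equiv.Perm (α → ZMod 2)} (R : Dat W e m)

include R

lemma einv {i j : α} (h : i ≠ j) : (e i j)⁻¹ = e i j := inv_eq_of_mul_eq_one_left (R.sq i j h)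

lemma st' {i j k : α} (h1 : i ≠ j) (h2 : i ≠ k) (h3 : j ≠ k) :
    e i j * e j k * e i j = e i k * e j k := by
  have h := R.st i j k h1 h2 h3
  have h' : e j k * e i j = e i j * e i k * e j k := by
    rw [← h, mul_assoc, mul_assoc, R.sq j k h3, mul_one]
  rw [mul_assoc, h', ← mul_assoc, ← mul_assoc, R.sq i j h1, one_mul]

omit R in
/-- the subgroup attached to a set of indices -/
def Q (W : SP α →* H) (e : α → α → H) (S : Set α) : Subgroup H :=
  Subgroup.closure ({q | ∃ σ : SP α, (∀ i, i ∉ S → ix σ i = i) ∧ q = W σ} ∪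
    {q | ∃ i ∈ S, ∃ j ∈ S, i ≠ j ∧ q = e i j})

omit R in
def P (W : SP α →* H) (e : α → α → H) (S : Set α) (s : α) : Subgroup H :=
  Subgroup.closure ({q | ∃ σ : SP α, (∀ i, i ∉ S → ix σ i = i) ∧ q = W σ} ∪
    {q | ∃ i ∈ insert s S, ∃ j ∈ S, i ≠ j ∧ q = e i j})

omit R in
def L (e : α → α → H) (S : Set α) (t : α) : Subgroup H :=
  Subgroup.closure ((fun i => e i t) '' {i | i ∈ S ∧ i ≠ t})

omit R in
def U (e : α → α → H) (S : Set α) (s : α) : Subgroup H :=
  Subgroup.closure ((fun j => e s j) '' S)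

lemma L_conj {S : Set α} {σ : SP α} (h : ∀ i, i ∉ S → ix σ i = i) {t : α} {c : H}
    (hc : c ∈ L e S t) : W σ * c * (W σ)⁻¹ ∈ L e S (ix σ t) := by
  unfold L at hc
  induction hc using Subgroup.closure_induction with
  | mem x hx =>
    obtain ⟨i, ⟨hi, hit⟩, rfl⟩ := hx
    rw [R.w σ i t hit]
    exact Subgroup.subset_closure ⟨ix σ i, ⟨ix_mem h hi, fun h' => hit (ix_inj σ h')⟩, rfl⟩
  | one => simp
  | mul x y _ _ h1 h2 =>
    have : W σ * (x * y) * (W σ)⁻¹ = (W σ * x * (W σ)⁻¹) * (W σ * y * (W σ)⁻¹) := by group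
    rw [this]; exact mul_mem h1 h2
  | inv x _ h1 =>
    have : W σ * x⁻¹ * (W σ)⁻¹ = (W σ * x * (W σ)⁻¹)⁻¹ := by group
    rw [this]; exact inv_mem h1

omit R in
lemma L_le_P {S : Set α} {s t : α} (ht : t ∈ S) : L e (insert s S) t ≤ P W e S s := by
  unfold L
  rw [Subgroup.closure_le]
  rintro _ ⟨i, ⟨hi, hit⟩, rfl⟩
  exact Subgroup.subset_closure (Or.inr ⟨i, hi, t, ht, hit, rfl⟩)

/-- conjugation by `e a b` with `a ≠ t`, `b ≠ t` preserves the column group. -/
lemma L_norm {S : Set α} {t a b : α} (ha : a ∈ S) (hab : a ≠ b) (hat : a ≠ t) (hbt : b ≠ t)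
    {c : H} (hc : c ∈ L e S t) : e a b * c * e a b ∈ L e S t := by
  unfold L at hc
  induction hc using Subgroup.closure_induction with
  | mem x hx =>
    obtain ⟨i, ⟨hi, hit⟩, rfl⟩ := hx
    show e a b * e i t * e a b ∈ _
    by_cases hib : i = b
    · subst hib
      rw [R.st' hab hat hit]
      exact mul_mem (Subgroup.subset_closure ⟨a, ⟨ha, hat⟩, rfl⟩)
        (Subgroup.subset_closure ⟨i, ⟨hi, hit⟩, rfl⟩)
    · rw [(R.c1 a b i t hab hit hat hib).eq, mul_assoc, R.sq a b hab, mul_one]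
      exact Subgroup.subset_closure ⟨i, ⟨hi, hit⟩, rfl⟩
  | one => rw [mul_one, R.sq a b hab]; exact one_mem _
  | mul x y _ _ h1 h2 =>
    have : e a b * (x * y) * e a b = (e a b * x * e a b) * (e a b * y * e a b) := by
      calc e a b * (x * y) * e a b = e a b * x * 1 * (y * e a b) := by group
        _ = _ := by rw [← R.sq a b hab]; group
    rw [this]; exact mul_mem h1 h2
  | inv x _ h1 =>
    have : e a b * x⁻¹ * e a b = (e a b * x * e a b)⁻¹ := by
      rw [mul_inv_rev, mul_inv_rev, R.einv hab, mul_assoc]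
    rw [this]; exact inv_mem h1

/-- the column group of `b` is normalised by the elements `e i t`, `i ≠ b`. -/
lemma L_norm' {S : Set α} {t b : α} (hbt : b ≠ t) {c : H}
    (hc : c ∈ Subgroup.closure ((fun i => e i t) '' {i | i ∈ S ∧ i ≠ t ∧ i ≠ b})) :
    ∀ y ∈ L e S b, c⁻¹ * y * c ∈ L e S b := by
  induction hc using Subgroup.closure_induction'' with
  | mem x hx =>
    obtain ⟨i, ⟨hi, hit, hib⟩, rfl⟩ := hx
    intro y hy
    show (e i t)⁻¹ * y * e i t ∈ _
    rw [R.einv hit]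
    exact R.L_norm hi hit hib (Ne.symm hbt) hy
  | inv_mem x hx =>
    obtain ⟨i, ⟨hi, hit, hib⟩, rfl⟩ := hx
    intro y hy
    show ((e i t)⁻¹)⁻¹ * y * (e i t)⁻¹ ∈ _
    rw [R.einv hit, R.einv hit]
    exact R.L_norm hi hit hib (Ne.symm hbt) hy
  | one => intro y hy; simpa using hy
  | mul x z _ _ h1 h2 =>
    intro y hy
    have : (x * z)⁻¹ * y * (x * z) = z⁻¹ * (x⁻¹ * y * x) * z := by group
    rw [this]
    exact h2 _ (h1 _ hy)

lemma pull {S : Set α} {s : α} {σ : SP α}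
    (hσ : ∀ i, i ∉ insert s S → ix σ i = i) {b : α} (hb : b ∈ insert s S) (hbt : b ≠ ix σ s)
    {y : H} (hy : y ∈ L e (insert s S) b) : ∃ p ∈ P W e S s, y * W σ = W σ * p := by
  refine ⟨(W σ)⁻¹ * y * W σ, ?_, by group⟩
  have h1 := R.L_conj (ix_fix_inv hσ) hy
  rw [map_inv, inv_inv] at h1
  refine L_le_P ?_ h1
  have h2 : ix σ⁻¹ b ∈ insert s S := ix_mem (ix_fix_inv hσ) hb
  rcases h2 with h2 | h2
  · exact absurd (by rw [← h2, ix_ix_inv]) hbt
  · exact h2

omit R in
def Nf (W : SP α →* H) (e : α → α → H) (S : Set α) (s : α) (q : H) : Prop :=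
  ∃ σ : SP α, (∀ i, i ∉ insert s S → ix σ i = i) ∧ ∃ c ∈ L e (insert s S) (ix σ s),
    ∃ p ∈ P W e S s, q = c * W σ * p

lemma ix_sg {a b : α} (h : a ≠ b) : ix (sg (a, true) (b, true) : SP α) a = b := by
  unfold ix
  rw [sg_left]
  rfl

lemma ix_sg_fix {a b i : α} (h1 : i ≠ a) (h2 : i ≠ b) :
    ix (sg (a, true) (b, true) : SP α) i = i := by
  unfold ix
  rw [sg_other (by simpa using h1) (by simpa using h2)]

lemma nf_e {S : Set α} {s : α} {a b : α} (ha : a ∈ insert s S)
    (hb : b ∈ insert s S) (hab : a ≠ b) {q : H} (hq : Nf W e S s q) : Nf W e S s (e a b * q) := by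
  obtain ⟨σ, hσ, c, hc, p, hp, rfl⟩ := hq
  by_cases hbt : b = ix σ s
  · refine ⟨σ, hσ, e a b * c, ?_, p, hp, by group⟩
    refine mul_mem (Subgroup.subset_closure ⟨a, ⟨ha, ?_⟩, ?_⟩) hc
    · rw [← hbt]; exact hab
    · simp only [hbt]
  by_cases hat : a = ix σ s
  · -- a = t
    have hdec := closure_insert_invol (fun i => e i (ix σ s))
      {i | i ∈ insert s S ∧ i ≠ ix σ s ∧ i ≠ b} b
      (fun l hl => R.c1 _ _ _ _ hbt hl.2.1 hbt hl.2.1) (R.sq _ _ hbt) (x := c) (by
        refine Subgroup.closure_mono (Set.image_mono ?_) hc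
        intro i hi
        by_cases hib : i = b
        · exact Or.inl hib
        · exact Or.inr ⟨hi.1, hi.2, hib⟩)
    have hyL : e a b ∈ L e (insert s S) b := Subgroup.subset_closure ⟨a, ⟨ha, hab⟩, rfl⟩
    rcases hdec with hc' | ⟨c', hc', rfl⟩
    · have hy := R.L_norm' hbt hc' _ hyL
      obtain ⟨p', hp', hpe⟩ := R.pull hσ hb hbt hy
      refine ⟨σ, hσ, c, hc, p' * p, mul_mem hp' hp, ?_⟩
      calc e a b * (c * W σ * p) = c * ((c⁻¹ * e a b * c) * W σ) * p := by group
        _ = _ := by rw [hpe]; group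
    · have hy := R.L_norm' hbt hc' _ hyL
      obtain ⟨p', hp', hpe⟩ := R.pull hσ hb hbt hy
      have hcL : c' ∈ L e (insert s S) (ix σ s) := by
        refine Subgroup.closure_mono (Set.image_mono ?_) hc'
        intro i hi
        exact ⟨hi.1, hi.2.1⟩
      have hcomm : Commute c' (e b (ix σ s)) := by
        clear hy hpe hc hcL
        induction hc' using Subgroup.closure_induction with
        | mem x hx =>
          obtain ⟨l, hl, rfl⟩ := hx
          exact R.c1 _ _ _ _ hl.2.1 hbt hl.2.1 hbt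
        | one => exact Commute.one_left _
        | mul x y _ _ h1 h2 => exact h1.mul_left h2
        | inv x _ h => exact h.inv_left
      set g : SP α := sg (a, true) (b, true) with hg
      have hgS : ∀ i, i ∉ insert s S → ix g i = i := by
        intro i hi
        refine R.ix_sg_fix ?_ ?_
        · rintro rfl; exact hi ha
        · rintro rfl; exact hi hb
      have hgt : ix g (ix σ s) = b := by rw [← hat]; exact R.ix_sg hab
      have hbr : e a b * e b a = W g * e a b := by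
        rw [← R.br a b hab, mul_assoc, R.sq a b hab, mul_one]
      refine ⟨g * σ, ?_, W g * c' * (W g)⁻¹, ?_, p' * p, mul_mem hp' hp, ?_⟩
      · intro i hi
        rw [ix_mul, hσ i hi, hgS i hi]
      · rw [ix_mul]
        exact R.L_conj hgS hcL
      · calc e a b * (c' * e b (ix σ s) * W σ * p)
            = e a b * (e b (ix σ s) * c') * W σ * p := by rw [← hcomm.eq]; group
          _ = e a b * e b a * c' * W σ * p := by rw [← hat]; group
          _ = W g * c' * ((c'⁻¹ * e a b * c') * W σ) * p := by rw [hbr]; group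
          _ = W g * c' * (W g)⁻¹ * W (g * σ) * (p' * p) := by rw [hpe, map_mul]; group
  · -- a ≠ t, b ≠ t
    have hyL : e a b ∈ L e (insert s S) b := Subgroup.subset_closure ⟨a, ⟨ha, hab⟩, rfl⟩
    obtain ⟨p', hp', hpe⟩ := R.pull hσ hb hbt hyL
    refine ⟨σ, hσ, e a b * c * e a b, R.L_norm ha hab hat hbt hc, p' * p, mul_mem hp' hp, ?_⟩
    calc e a b * (c * W σ * p) = e a b * c * 1 * W σ * p := by group
      _ = e a b * c * e a b * (e a b * W σ) * p := by rw [← R.sq a b hab]; group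
      _ = _ := by rw [hpe]; group

lemma nf_w {S : Set α} {s : α} {τ : SP α} (hτ : ∀ i, i ∉ insert s S → ix τ i = i) {q : H}
    (hq : Nf W e S s q) : Nf W e S s (W τ * q) := by
  obtain ⟨σ, hσ, c, hc, p, hp, rfl⟩ := hq
  refine ⟨τ * σ, ?_, W τ * c * (W τ)⁻¹, ?_, p, hp, ?_⟩
  · intro i hi
    rw [ix_mul, hσ i hi, hτ i hi]
  · rw [ix_mul]
    exact R.L_conj hτ hc
  · rw [map_mul]; group

lemma nf {S : Set α} {s : α} {q : H} (hq : q ∈ Q W e (insert s S)) :
    Nf W e S s q := by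
  unfold Q at hq
  induction hq using Subgroup.closure_induction_left with
  | one => exact ⟨1, fun i _ => rfl, 1, one_mem _, 1, one_mem _, by simp⟩
  | mul_left x hx y hy ih =>
    rcases hx with ⟨σ, hσ, rfl⟩ | ⟨i, hi, j, hj, hij, rfl⟩
    · exact R.nf_w hσ ih
    · exact R.nf_e hi hj hij ih
  | inv_mul_cancel x hx y hy ih =>
    rcases hx with ⟨σ, hσ, rfl⟩ | ⟨i, hi, j, hj, hij, rfl⟩
    · rw [← map_inv]
      exact R.nf_w (ix_fix_inv hσ) ih
    · rw [R.einv hij]
      exact R.nf_e hi hj hij ih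

end Dat

end Pool.Agent.H846R3.Sq
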