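import Pool.Agent.H846R3.Abs

set_option autoImplicit false
set_option linter.unusedSectionVars false

namespace Pool.Agent.H846R3.Sq
open Pool.Agent.Helper156.OF

namespace Dat

variable {α H : Type} [DecidableEq α] [Fintype α] [Group H] {W : SP α →* H} {e : α → α → H}
    {m : H →* Equiv.Perm (α → ZMod 2)} (R : Dat W e m)

include R

/-! ### the row group -/

lemma U_w {S : Set α} {s : α} (hs : s ∉ S) {σ : SP α} (hσ : ∀ i, i ∉ S → ix σ i = i) {u : H}
    (hu : u ∈ U e S s) : W σ * u * (W σ)⁻¹ ∈ U e S s := by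
  unfold U at hu
  induction hu using Subgroup.closure_induction with
  | mem x hx =>
    obtain ⟨j, hj, rfl⟩ := hx
    show W σ * e s j * (W σ)⁻¹ ∈ _
    rw [R.w σ s j (fun h => hs (h ▸ hj)), hσ s hs]
    exact Subgroup.subset_closure ⟨_, ix_mem hσ hj, rfl⟩
  | one => simp
  | mul x y _ _ h1 h2 =>
    have : W σ * (x * y) * (W σ)⁻¹ = (W σ * x * (W σ)⁻¹) * (W σ * y * (W σ)⁻¹) := by group
    rw [this]; exact mul_mem h1 h2
  | inv x _ h1 =>
    have : W σ * x⁻¹ * (W σ)⁻¹ = (W σ * x * (W σ)⁻¹)⁻¹ := by group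
    rw [this]; exact inv_mem h1

lemma U_e {S : Set α} {s i j : α} (hs : s ∉ S) (hi : i ∈ S) (hj : j ∈ S) (hij : i ≠ j) {u : H}
    (hu : u ∈ U e S s) : e i j * u * e i j ∈ U e S s := by
  have hsj : s ≠ j := fun h => hs (h ▸ hj)
  have hsi : s ≠ i := fun h => hs (h ▸ hi)
  unfold U at hu
  induction hu using Subgroup.closure_induction with
  | mem x hx =>
    obtain ⟨k, hk, rfl⟩ := hx
    show e i j * e s k * e i j ∈ _
    by_cases hki : k = i
    · subst hki
      rw [R.st s k j hsi hsj hij]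
      exact mul_mem (Subgroup.subset_closure ⟨k, hk, rfl⟩) (Subgroup.subset_closure ⟨j, hj, rfl⟩)
    · rw [(R.c1 i j s k hij (fun h => hs (h ▸ hk)) (Ne.symm hki) hsj).eq, mul_assoc,
        R.sq i j hij, mul_one]
      exact Subgroup.subset_closure ⟨k, hk, rfl⟩
  | one => rw [mul_one, R.sq i j hij]; exact one_mem _
  | mul x y _ _ h1 h2 =>
    have : e i j * (x * y) * e i j = (e i j * x * e i j) * (e i j * y * e i j) := by
      calc e i j * (x * y) * e i j = e i j * x * 1 * (y * e i j) := by group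
        _ = _ := by rw [← R.sq i j hij]; group
    rw [this]; exact mul_mem h1 h2
  | inv x _ h1 =>
    have : e i j * x⁻¹ * e i j = (e i j * x * e i j)⁻¹ := by
      rw [mul_inv_rev, mul_inv_rev, R.einv hij, mul_assoc]
    rw [this]; exact inv_mem h1

lemma p_dec {S : Set α} {s : α} (hs : s ∉ S) {p : H} (hp : p ∈ P W e S s) :
    ∃ u ∈ U e S s, ∃ q ∈ Q W e S, p = u * q := by
  have key1 : ∀ (σ : SP α), (∀ i, i ∉ S → ix σ i = i) → ∀ y : H,
      (∃ u ∈ U e S s, ∃ q ∈ Q W e S, y = u * q) →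
      ∃ u ∈ U e S s, ∃ q ∈ Q W e S, W σ * y = u * q := by
    rintro σ hσ y ⟨u, hu, q, hq, rfl⟩
    refine ⟨_, R.U_w hs hσ hu, W σ * q, mul_mem (Subgroup.subset_closure
      (Or.inl ⟨σ, hσ, rfl⟩)) hq, by group⟩
  have key2 : ∀ i ∈ insert s S, ∀ j ∈ S, i ≠ j → ∀ y : H,
      (∃ u ∈ U e S s, ∃ q ∈ Q W e S, y = u * q) →
      ∃ u ∈ U e S s, ∃ q ∈ Q W e S, e i j * y = u * q := by
    rintro i hi j hj hij y ⟨u, hu, q, hq, rfl⟩
    rcases hi with rfl | hi
    · exact ⟨e i j * u, mul_mem (Subgroup.subset_closure ⟨j, hj, rfl⟩) hu, q, hq, by group⟩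
    · refine ⟨_, R.U_e hs hi hj hij hu, e i j * q, mul_mem (Subgroup.subset_closure
        (Or.inr ⟨i, hi, j, hj, hij, rfl⟩)) hq, ?_⟩
      calc e i j * (u * q) = e i j * u * 1 * q := by group
        _ = _ := by rw [← R.sq i j hij]; group
  unfold P at hp
  induction hp using Subgroup.closure_induction_left with
  | one => exact ⟨1, one_mem _, 1, one_mem _, by simp⟩
  | mul_left x hx y hy ih =>
    rcases hx with ⟨σ, hσ, rfl⟩ | ⟨i, hi, j, hj, hij, rfl⟩
    · exact key1 σ hσ _ ih
    · exact key2 i hi j hj hij _ ih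
  | inv_mul_cancel x hx y hy ih =>
    rcases hx with ⟨σ, hσ, rfl⟩ | ⟨i, hi, j, hj, hij, rfl⟩
    · rw [← map_inv]
      exact key1 _ (ix_fix_inv hσ) _ ih
    · rw [R.einv hij]
      exact key2 i hi j hj hij _ ih

/-! ### matrices -/

lemma mw_apply (σ : SP α) (v : α → ZMod 2) (k : α) : m (W σ) v k = v (ix σ⁻¹ k) := by
  have h := R.mw σ v (ix σ⁻¹ k)
  rwa [ix_ix_inv] at h

lemma mw_single (σ : SP α) (s : α) :
    m (W σ) (Pi.single s 1) = Pi.single (ix σ s) 1 := by
  funext k
  rw [R.mw_apply]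
  by_cases h : k = ix σ s
  · subst h
    simp
  · have h' : ix σ⁻¹ k ≠ s := by
      intro h2
      apply h
      rw [← h2, ix_ix_inv]
    rw [Pi.single_eq_of_ne h', Pi.single_eq_of_ne h]

omit R [DecidableEq α] [Fintype α] in
lemma closure_ind {s : Set H} {p : H → Prop} (hm : ∀ x ∈ s, p x) (h1 : p 1)
    (hmul : ∀ x y, p x → p y → p (x * y)) (hinv : ∀ x, p x → p x⁻¹) {x : H}
    (hx : x ∈ Subgroup.closure s) : p x := by
  induction hx using Subgroup.closure_induction with
  | mem x hx => exact hm x hx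
  | one => exact h1
  | mul x y _ _ h1 h2 => exact hmul x y h1 h2
  | inv x _ h => exact hinv x h

/-- subsets of `H` preserving the `t` coordinate form a subgroup -/
lemma coord {s : Set H} {t : α} (hm : ∀ x ∈ s, ∀ v, m x v t = v t) {x : H}
    (hx : x ∈ Subgroup.closure s) : ∀ v, m x v t = v t := by
  refine closure_ind (p := fun x => ∀ v, m x v t = v t) hm (by simp) ?_ ?_ hx
  · intro x y h1 h2 v
    rw [map_mul, Equiv.Perm.mul_apply, h1, h2]
  · intro x h v
    have := h (m x⁻¹ v)
    rw [← Equiv.Perm.mul_apply, ← map_mul, mul_inv_cancel, map_one] at this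
    exact this.symm

lemma fixv {s : Set H} {v : α → ZMod 2} (hm : ∀ x ∈ s, m x v = v) {x : H}
    (hx : x ∈ Subgroup.closure s) : m x v = v := by
  refine closure_ind (p := fun x => m x v = v) hm (by simp) ?_ ?_ hx
  · intro x y h1 h2
    rw [map_mul, Equiv.Perm.mul_apply, h2, h1]
  · intro x h
    rw [map_inv, Equiv.Perm.inv_eq_iff_eq, h]

lemma me_other {i j k : α} (hij : i ≠ j) (hk : k ≠ i) (v : α → ZMod 2) :
    m (e i j) v k = v k := by
  rw [R.me i j v hij, Function.update_of_ne hk]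

lemma me_zero {i j : α} (hij : i ≠ j) {v : α → ZMod 2} (hv : v j = 0) :
    m (e i j) v = v := by
  rw [R.me i j v hij, hv, add_zero, Function.update_eq_self]

lemma P_fix {S : Set α} {s : α} (hs : s ∉ S) {p : H} (hp : p ∈ P W e S s) :
    m p (Pi.single s 1) = Pi.single s 1 := by
  refine R.fixv ?_ hp
  rintro x (⟨σ, hσ, rfl⟩ | ⟨i, hi, j, hj, hij, rfl⟩)
  · rw [R.mw_single, hσ s hs]
  · refine R.me_zero hij ?_
    exact Pi.single_eq_of_ne (show j ≠ s from fun h => hs (h ▸ hj)) _

lemma col_free (t : α) (T : Finset α) (ht : t ∉ T) : ∀ c : H,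
    c ∈ Subgroup.closure ((fun i => e i t) '' (T : Set α)) →
    m c (Pi.single t 1) = Pi.single t 1 → c = 1 := by
  induction T using Finset.induction_on with
  | empty => intro c hc _; simpa using hc
  | insert b T hb ih =>
    intro c hc h
    have hbt : b ≠ t := fun h => ht (h ▸ Finset.mem_insert_self _ _)
    have htT : t ∉ T := fun h => ht (Finset.mem_insert_of_mem h)
    rw [Finset.coe_insert] at hc
    have hne : ∀ l ∈ (T : Set α), l ≠ t := fun l hl h => htT (h ▸ hl)
    rcases closure_insert_invol (fun i => e i t) (T : Set α) b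
      (fun l hl => R.c1 _ _ _ _ hbt (hne l hl) hbt (hne l hl)) (R.sq _ _ hbt) hc with h1 | ⟨c', h1, rfl⟩
    · exact ih htT c h1 h
    · exfalso
      have hco : ∀ v, m c' v b = v b := by
        refine R.coord ?_ h1
        rintro _ ⟨i, hi, rfl⟩ v
        exact R.me_other (hne i hi) (show b ≠ i from fun h => hb (h ▸ hi)) v
      have h2 := congrFun h b
      rw [map_mul, Equiv.Perm.mul_apply, hco, R.me b t _ hbt, Function.update_self,
        Pi.single_eq_same, Pi.single_eq_of_ne hbt] at h2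
      revert h2
      decide

lemma row_free (s : α) (T : Finset α) (hs : s ∉ T) : ∀ u : H,
    u ∈ Subgroup.closure ((fun j => e s j) '' (T : Set α)) → m u = 1 → u = 1 := by
  induction T using Finset.induction_on with
  | empty => intro c hc _; simpa using hc
  | insert b T hb ih =>
    intro c hc h
    have hbs : s ≠ b := fun h => hs (h ▸ Finset.mem_insert_self _ _)
    have hsT : s ∉ T := fun h => hs (Finset.mem_insert_of_mem h)
    rw [Finset.coe_insert] at hc
    have hne : ∀ l ∈ (T : Set α), s ≠ l := fun l hl h => hsT (h ▸ hl)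
    rcases closure_insert_invol (fun i => e s i) (T : Set α) b
      (fun l hl => R.c1 _ _ _ _ hbs (hne l hl) (hne l hl) hbs) (R.sq _ _ hbs) hc with h1 | ⟨c', h1, rfl⟩
    · exact ih hsT c h1 h
    · exfalso
      -- evaluate at δ_b, coordinate s
      have hT0 : ∀ v : α → ZMod 2, (∀ l ∈ T, v l = 0) → m c' v = v := by
        intro v hv
        refine R.fixv ?_ h1
        rintro _ ⟨i, hi, rfl⟩
        exact R.me_zero (hne i hi) (hv i hi)
      have h2 := congrFun (congrArg (fun (q : Equiv.Perm (α → ZMod 2)) => q (Pi.single b 1)) h) s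
      simp only [map_mul, Equiv.Perm.mul_apply, Equiv.Perm.coe_one, id_eq] at h2
      rw [hT0, R.me s b _ hbs, Function.update_self, Pi.single_eq_same,
        Pi.single_eq_of_ne hbs] at h2
      · revert h2
        decide
      · intro l hl
        rw [R.me s b _ hbs, Function.update_of_ne (Ne.symm (hne l hl)),
          Pi.single_eq_of_ne (show l ≠ b from fun h => hb (h ▸ hl))]

theorem main (S : Finset α) : ∀ q ∈ Q W e (S : Set α), m q = 1 →
    ∃ σ : SP α, (∀ i, ix σ i = i) ∧ q = W σ := by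
  induction S using Finset.induction_on with
  | empty =>
    intro q hq _
    refine closure_ind (p := fun q => ∃ σ : SP α, (∀ i, ix σ i = i) ∧ q = W σ) ?_ ?_ ?_ ?_ hq
    · rintro x (⟨σ, hσ, rfl⟩ | ⟨i, hi, j, hj, hij, rfl⟩)
      · exact ⟨σ, fun i => hσ i (by simp), rfl⟩
      · simp at hi
    · exact ⟨1, fun i => rfl, by simp⟩
    · rintro _ _ ⟨σ, hσ, rfl⟩ ⟨τ, hτ, rfl⟩
      exact ⟨σ * τ, fun i => by rw [ix_mul, hτ, hσ], by rw [map_mul]⟩
    · rintro _ ⟨σ, hσ, rfl⟩
      refine ⟨σ⁻¹, fun i => ?_, by rw [map_inv]⟩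
      exact ix_inj σ (by rw [ix_ix_inv, hσ])
  | insert s S hs ih =>
    intro q hq hm
    have hs' : s ∉ (S : Set α) := by simpa using hs
    rw [Finset.coe_insert] at hq
    obtain ⟨σ, hσ, c, hc, p, hp, rfl⟩ := R.nf hq
    -- the index of the pivot
    have h1 : m c (Pi.single (ix σ s) 1) = Pi.single s 1 := by
      have := congrArg (fun (q : Equiv.Perm (α → ZMod 2)) => q (Pi.single s 1)) hm
      simpa [map_mul, Equiv.Perm.mul_apply, R.P_fix hs' hp, R.mw_single] using this
    have hcc : ∀ v, m c v (ix σ s) = v (ix σ s) := by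
      refine R.coord ?_ hc
      rintro _ ⟨i, hi, rfl⟩ v
      exact R.me_other hi.2 (Ne.symm hi.2) v
    have hts : ix σ s = s := by
      by_contra hne
      have h2 := congrFun h1 (ix σ s)
      rw [hcc, Pi.single_eq_same, Pi.single_eq_of_ne hne] at h2
      exact one_ne_zero h2
    have hc1 : c = 1 := by
      rw [hts] at h1 hc
      refine R.col_free s S hs c (Subgroup.closure_mono (Set.image_mono ?_) hc) h1
      rintro i ⟨hi, his⟩
      rcases hi with hi | hi
      · exact absurd hi his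
      · exact hi
    subst hc1
    have hσ' : ∀ i, i ∉ (S : Set α) → ix σ i = i := by
      intro i hi
      by_cases his : i = s
      · rw [his, hts]
      · exact hσ i (by simp only [Set.mem_insert_iff, not_or]; exact ⟨his, hi⟩)
    have hP : 1 * W σ * p ∈ P W e (S : Set α) s := by
      rw [one_mul]
      exact mul_mem (Subgroup.subset_closure (Or.inl ⟨σ, hσ', rfl⟩)) hp
    obtain ⟨u, hu, q', hq', hdec⟩ := R.p_dec hs' hP
    rw [hdec] at hm ⊢
    have hne : ∀ l ∈ (S : Set α), s ≠ l := fun l hl h => hs' (h ▸ hl)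
    have hu' : ∀ k, k ≠ s → ∀ v, m u v k = v k := by
      intro k hk
      refine R.coord ?_ hu
      rintro _ ⟨i, hi, rfl⟩ v
      exact R.me_other (hne i hi) hk v
    have hq'' : ∀ v, m q' v s = v s := by
      refine R.coord ?_ hq'
      rintro _ (⟨σ, hσ, rfl⟩ | ⟨i, hi, j, hj, hij, rfl⟩) v
      · rw [R.mw_apply, ix_fix_inv hσ s hs']
      · exact R.me_other hij (hne i hi) v
    have hmq' : m q' = 1 := by
      ext1 v
      funext k
      rw [Equiv.Perm.coe_one, id_eq]
      by_cases hk : k = s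
      · rw [hk, hq'']
      · rw [← hu' k hk (m q' v), ← Equiv.Perm.mul_apply, ← map_mul, hm, Equiv.Perm.coe_one, id_eq]
    have hmu : m u = 1 := by
      rw [map_mul, hmq', mul_one] at hm
      exact hm
    have hu1 : u = 1 := R.row_free s S hs u hu hmu
    rw [hu1, one_mul]
    exact ih q' hq' hmq'

end Dat

end Pool.Agent.H846R3.Sq
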