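import Pool.Agent.H846R3.Sgn
import Pool.Agent.Helper156.OF.Nielsen

set_option autoImplicit false
set_option linter.unusedSectionVars false

namespace Pool.Agent.H846R3.Sq
open Pool.Agent.Helper156.OF

/-! ### explicit automorphisms -/

section expl

variable {α : Type} [DecidableEq α] [Fintype α]

lemma chi_lift (χ : FreeGroup α →* ℤˣ) :
    ∃ f : FreeGroup α →* S3, ∀ x, Equiv.Perm.sign (f x) = χ x := by
  refine ⟨FreeGroup.lift (fun k => if χ (FreeGroup.of k) = 1 then 1 else Equiv.swap 0 1), ?_⟩
  intro x
  have : (Equiv.Perm.sign : S3 →* ℤˣ).comp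
      (FreeGroup.lift (fun k => if χ (FreeGroup.of k) = 1 then 1 else Equiv.swap 0 1)) = χ := by
    ext1 k
    rw [MonoidHom.comp_apply, FreeGroup.lift_apply_of]
    rcases Int.units_eq_one_or (χ (FreeGroup.of k)) with h | h
    · rw [h, if_pos rfl, map_one]
    · rw [h, if_neg (by decide), Equiv.Perm.sign_swap (by decide)]
  exact DFunLike.congr_fun this x

lemma triv_G2 {ψ : MulAut (FreeGroup α)} (hψ : ∀ (f : FreeGroup α →* S3) x, f (ψ x) = f x) :
    ψ ∈ G2 α := by
  intro χ x
  obtain ⟨f, hf⟩ := chi_lift χ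
  rw [← hf, ← hf, hψ]

/-- the isomorphism from signs to `ZMod 2` -/
def dd : ℤˣ →* Multiplicative (ZMod 2) where
  toFun u := if u = 1 then 1 else Multiplicative.ofAdd 1
  map_one' := by simp
  map_mul' := by decide

lemma G2_mm {ψ : MulAut (FreeGroup α)} (hψ : ψ ∈ G2 α) : mm ψ = 1 := by
  ext1 v
  funext i
  rw [mm_apply]
  have h : fv v = dd.comp (FreeGroup.lift (fun i => if v i = 0 then (1 : ℤˣ) else -1)) := by
    ext1 k
    rw [fv_of, MonoidHom.comp_apply, FreeGroup.lift_apply_of]
    generalize v k = t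
    revert t
    decide
  have h2 : fv v (ψ⁻¹ (gl (i, true))) = fv v (gl (i, true)) := by
    rw [h, MonoidHom.comp_apply, G2_inv hψ]
    rfl
  rw [h2, fv_gl]
  rfl

lemma mem_G2_of {φ : MulAut (FreeGroup α)}
    (h : ∀ (χ : FreeGroup α →* ℤˣ) k, χ (φ (FreeGroup.of k)) = χ (FreeGroup.of k)) :
    φ ∈ G2 α := by
  intro χ x
  have : χ.comp (φ : FreeGroup α →* FreeGroup α) = χ := by
    ext1 k
    exact h χ k
  exact DFunLike.congr_fun this x

lemma e_i {i j : α} (h : i ≠ j) : eAut (i, true) (j, true) (FreeGroup.of i) =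
    FreeGroup.of i * FreeGroup.of j := eAut_self_right (i, true) (j, true) h

lemma e_k {i j k : α} (h : k ≠ i) : eAut (i, true) (j, true) (FreeGroup.of k) =
    FreeGroup.of k := eAut_fix (i, true) (j, true) (k, true) h

lemma units_sq (u : ℤˣ) : u * u = 1 := by revert u; decide

lemma e2_KS {i j : α} (h : i ≠ j) :
    eAut (i, true) (j, true) * eAut (i, true) (j, true) ∈ KS α := by
  intro χ
  have hji : j ≠ i := Ne.symm h
  have h1 : ∀ k, (eAut (i, true) (j, true) * eAut (i, true) (j, true)) (FreeGroup.of k) =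
      if k = i then FreeGroup.of i * FreeGroup.of j * FreeGroup.of j else FreeGroup.of k := by
    intro k
    rw [MulAut.mul_apply]
    split_ifs with hk
    · subst hk
      rw [e_i h, map_mul, e_i h, e_k hji]
    · rw [e_k hk, e_k hk]
  have hG : eAut (i, true) (j, true) * eAut (i, true) (j, true) ∈ G2 α := by
    apply mem_G2_of
    intro χ k
    rw [h1]
    split_ifs with hk
    · rw [map_mul, map_mul, mul_assoc, units_sq, mul_one, hk]
    · rfl
  refine SG.of_cube hG (SG.of_triv (mul_mem (mul_mem hG hG) hG) ?_)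
  intro f _ k
  generalize hφ : eAut (i, true) (j, true) * eAut (i, true) (j, true) = φ at h1
  rw [MulAut.mul_apply, MulAut.mul_apply]
  have hj : φ (FreeGroup.of j) = FreeGroup.of j := by rw [h1, if_neg hji]
  by_cases hk : k = i
  · subst hk
    have hk' : φ (FreeGroup.of k) = FreeGroup.of k * FreeGroup.of j * FreeGroup.of j := by
      rw [h1, if_pos rfl]
    simp only [hk', map_mul, hj]
    have := S3_six (f (FreeGroup.of j))
    calc _ = f (FreeGroup.of k) * (f (FreeGroup.of j)) ^ 6 := by
          simp only [pow_succ, pow_zero, one_mul, mul_assoc]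
      _ = _ := by rw [this, mul_one]
  · have hk' : φ (FreeGroup.of k) = FreeGroup.of k := by rw [h1, if_neg hk]
    rw [hk', hk', hk']

/-- partial conjugation -/
def KA (i j : α) : MulAut (FreeGroup α) := KK eAut (i, true) (j, true)

lemma KA_i {i j : α} (h : i ≠ j) : KA i j (FreeGroup.of i) =
    (FreeGroup.of j)⁻¹ * FreeGroup.of i * FreeGroup.of j := by
  unfold KA KK
  have h1 : eAut (nv (i, true)) (j, true) (FreeGroup.of i) =
      (FreeGroup.of j)⁻¹ * FreeGroup.of i := by
    have := eAut_um (nv (i, true)) (j, true) (by simpa using h) (i, true)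
    rw [gl_true] at this
    rw [this]
    simp [um, ne_nv, gl_true]
  rw [MulAut.mul_apply, h1, map_mul, map_inv, e_k (Ne.symm h), e_i h]
  group

lemma KA_k {i j k : α} (h : k ≠ i) : KA i j (FreeGroup.of k) = FreeGroup.of k := by
  unfold KA KK
  rw [MulAut.mul_apply]
  have : eAut (nv (i, true)) (j, true) (FreeGroup.of k) = FreeGroup.of k :=
    eAut_fix (nv (i, true)) (j, true) (k, true) h
  rw [this, e_k h]

lemma KA_G2 {i j : α} (h : i ≠ j) : KA i j ∈ G2 α := by
  apply mem_G2_of
  intro χ k
  by_cases hk : k = i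
  · subst hk
    rw [KA_i h, map_mul, map_mul, map_inv, mul_comm (χ (FreeGroup.of j))⁻¹, inv_mul_cancel_right]
  · rw [KA_k hk]

lemma S3_three (g : S3) (h : Equiv.Perm.sign g = 1) : g * g * g = 1 := by
  revert g
  decide

lemma SG_KA_one {i j : α} (h : i ≠ j) {χ : FreeGroup α →* ℤˣ} (hχ : χ (FreeGroup.of j) = 1) :
    SG χ (KA i j) 1 := by
  have hG := KA_G2 h
  refine SG.of_cube hG (SG.of_triv (mul_mem (mul_mem hG hG) hG) ?_)
  intro f hf k
  rw [MulAut.mul_apply, MulAut.mul_apply]
  by_cases hk : k = i
  · subst hk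
    simp only [KA_i h, map_mul, map_inv, KA_k (Ne.symm h)]
    have := S3_three (f (FreeGroup.of j)) (by rw [hf, hχ])
    calc _ = (f (FreeGroup.of j) * f (FreeGroup.of j) * f (FreeGroup.of j))⁻¹ *
          f (FreeGroup.of k) *
          (f (FreeGroup.of j) * f (FreeGroup.of j) * f (FreeGroup.of j)) := by group
      _ = _ := by rw [this]; simp
  · rw [KA_k hk, KA_k hk, KA_k hk]

lemma S3_refl (g h : S3) (hg : Equiv.Perm.sign g = -1) (hh : Equiv.Perm.sign h = 1) :
    g * h * g⁻¹ = h⁻¹ := by
  revert g h
  decide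

lemma SG_KA_neg {i j : α} (h : i ≠ j) {χ : FreeGroup α →* ℤˣ} (hi : χ (FreeGroup.of i) = 1)
    (hj : χ (FreeGroup.of j) = -1) : SG χ (KA i j) (-1) := by
  refine SG.neg (KA_G2 h) i hi ?_
  intro f hf k
  have h1 : KA i j (FreeGroup.of j * FreeGroup.of i * (FreeGroup.of j)⁻¹) = FreeGroup.of i := by
    rw [map_mul, map_mul, map_inv, KA_i h, KA_k (Ne.symm h)]; group
  split_ifs with hk
  · subst hk
    rw [show (KA k j)⁻¹ (FreeGroup.of k) =
      FreeGroup.of j * FreeGroup.of k * (FreeGroup.of j)⁻¹ from by
        conv_lhs => rw [← h1]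
        rw [MulAut.inv_apply_self]]
    rw [map_mul, map_mul, map_inv]
    exact S3_refl _ _ (by rw [hf, hj]) (by rw [hf, hi])
  · rw [show (KA i j)⁻¹ (FreeGroup.of k) = FreeGroup.of k from by
        conv_lhs => rw [← KA_k (j := j) hk]
        rw [MulAut.inv_apply_self]]

/-- inversion of a generator -/
def io' (a : Lt α) : SP α := swp a (nv a)

lemma io'_sq (a : Lt α) : io' a * io' a = 1 := swp_mul_self _ _

lemma io'_self (a : Lt α) : (io' a : Equiv.Perm (Lt α)) a = nv a := swp_left _ _

lemma io'_other {a c : Lt α} (h : c.1 ≠ a.1) : (io' a : Equiv.Perm (Lt α)) c = c :=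
  swp_other h (by simpa using h)

lemma io_i (i : α) : toAut (io' (i, true)) (FreeGroup.of i) = (FreeGroup.of i)⁻¹ := by
  rw [← gl_true, toAut_gl, io'_self, gl_nv]

lemma io_k {i k : α} (h : k ≠ i) : toAut (io' (i, true)) (FreeGroup.of k) = FreeGroup.of k := by
  rw [← gl_true, toAut_gl, io'_other h]

lemma SG_io (i : α) : SG (1 : FreeGroup α →* ℤˣ) (toAut (io' (i, true))) (-1) := by
  have hG : toAut (io' (i, true)) ∈ G2 α := by
    apply mem_G2_of
    intro χ k
    by_cases hk : k = i
    · subst hk
      rw [io_i, map_inv]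
      generalize χ (FreeGroup.of k) = u
      revert u
      decide
    · rw [io_k hk]
  refine SG.neg hG i rfl ?_
  intro f _ k
  have h1 : (toAut (io' (i, true)))⁻¹ = toAut (io' (i, true)) := by
    rw [← map_inv, inv_eq_of_mul_eq_one_left (io'_sq _)]
  rw [h1]
  split_ifs with hk
  · rw [hk, io_i, map_inv]
  · rw [io_k hk]

end expl

/-! ### sign changes modulo the partial conjugations -/

section sign

variable {α P : Type} [DecidableEq α] [Fintype α] [Group P] {W : SP α →* P}
    {E : Lt α → Lt α → P} (R : Rel W E) (sq : ∀ x a, E x a * E x a = 1)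

lemma sg_sq {a b : Lt α} (h : a.1 ≠ b.1) : sg a b * sg a b = io' a * io' b := by
  apply SP_ext
  intro x
  have hb : b.1 ≠ a.1 := Ne.symm h
  rw [Subgroup.coe_mul, Subgroup.coe_mul, Equiv.Perm.mul_apply, Equiv.Perm.mul_apply]
  by_cases hx : x.1 = a.1
  · have key : (sg a b : Equiv.Perm (Lt α)) ((sg a b : Equiv.Perm (Lt α)) a) =
        (io' a : Equiv.Perm (Lt α)) ((io' b : Equiv.Perm (Lt α)) a) := by
      rw [sg_left, SP.map_nv, sg_right h, io'_other h, io'_self]
    rcases fst_eq_iff.1 hx with rfl | rfl
    · exact key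
    · rw [SP.map_nv, SP.map_nv, key, SP.map_nv, SP.map_nv]
  · by_cases hx2 : x.1 = b.1
    · have key : (sg a b : Equiv.Perm (Lt α)) ((sg a b : Equiv.Perm (Lt α)) b) =
          (io' a : Equiv.Perm (Lt α)) ((io' b : Equiv.Perm (Lt α)) b) := by
        rw [sg_right h, sg_left, io'_self, SP.map_nv, io'_other hb]
      rcases fst_eq_iff.1 hx2 with rfl | rfl
      · exact key
      · rw [SP.map_nv, SP.map_nv, key, SP.map_nv, SP.map_nv]
    · rw [sg_other hx hx2, sg_other hx hx2, io'_other hx2, io'_other hx]

include R sq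

lemma io_io_mem (hN : (N1 E).Normal) {a b : Lt α} (h : a.1 ≠ b.1) :
    W (io' a) * W (io' b) ∈ N1 E := by
  rw [← map_mul, ← sg_sq h, map_mul]
  have h1 := sg_eq R sq h
  set t := E a b * E b a * E a b with ht
  have htt : t * t = 1 := by
    rw [ht]
    calc E a b * E b a * E a b * (E a b * E b a * E a b)
        = E a b * E b a * (E a b * E a b) * E b a * E a b := by group
      _ = E a b * (E b a * E b a) * E a b := by rw [sq]; group
      _ = 1 := by rw [sq, mul_one, sq]
  have h2 : W (sg a b) = KK E a b * t := by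
    rw [h1, ← mul_assoc, KK_sq R sq, one_mul]
  have h3 : W (sg a b) * W (sg a b) = KK E a b * (t * KK E a b * t⁻¹) := by
    rw [h2, inv_eq_of_mul_eq_one_left htt]; group
  rw [h3]
  have hK : KK E a b ∈ N1 E := Subgroup.subset_closure ⟨a, b, h, rfl⟩
  exact mul_mem hK (hN.conj_mem _ hK t)

lemma D_elem (hN : (N1 E).Normal) (i0 : α) (T : Finset α) : ∀ σ : SP α, (∀ i, ix σ i = i) →
    (∀ i, i ∉ T → (σ : Equiv.Perm (Lt α)) (i, true) = (i, true)) →
    W σ ∈ N1 E ∨ W σ * W (io' (i0, true)) ∈ N1 E := by
  induction T using Finset.induction_on with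
  | empty =>
    intro σ _ h2
    left
    have : σ = 1 := by
      apply SP_ext
      intro x
      obtain ⟨i, b⟩ := x
      cases b
      · have : ((i, false) : Lt α) = nv (i, true) := rfl
        rw [this, SP.map_nv, h2 i (by simp)]
        rfl
      · exact h2 i (by simp)
    rw [this, map_one]
    exact one_mem _
  | insert b T _ ih =>
    intro σ h1 h2
    by_cases hb : (σ : Equiv.Perm (Lt α)) (b, true) = (b, true)
    · refine ih σ h1 (fun i hi => ?_)
      by_cases hib : i = b
      · rw [hib, hb]
      · exact h2 i (by simp [hib, hi])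
    · have hb' : (σ : Equiv.Perm (Lt α)) (b, true) = nv (b, true) := by
        have : ((σ : Equiv.Perm (Lt α)) (b, true)).1 = ((b, true) : Lt α).1 := h1 b
        rcases fst_eq_iff.1 this with h | h
        · exact absurd h hb
        · exact h
      have key := ih (σ * io' (b, true)) (fun i => ?_) (fun i hi => ?_)
      · have hio : W (io' (b, true)) * W (io' (i0, true)) ∈ N1 E := by
          by_cases hbi : b = i0
          · rw [hbi, ← map_mul, io'_sq, map_one]; exact one_mem _
          · exact io_io_mem R sq hN hbi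
        have hbb : W (io' (b, true)) * W (io' (b, true)) = 1 := by
          rw [← map_mul, io'_sq, map_one]
        have h00 : W (io' (i0, true)) * W (io' (i0, true)) = 1 := by
          rw [← map_mul, io'_sq, map_one]
        rw [map_mul] at key
        rcases key with key | key
        · right
          have := mul_mem key hio
          have e : W σ * W (io' (b, true)) * (W (io' (b, true)) * W (io' (i0, true))) =
              W σ * W (io' (i0, true)) := by
            calc _ = W σ * (W (io' (b, true)) * W (io' (b, true))) * W (io' (i0, true)) := by group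
              _ = _ := by rw [hbb, mul_one]
          rwa [e] at this
        · left
          have := mul_mem key (inv_mem hio)
          have e : W σ * W (io' (b, true)) * W (io' (i0, true)) *
              (W (io' (b, true)) * W (io' (i0, true)))⁻¹ = W σ := by group
          rwa [e] at this
      · rw [ix_mul]
        have : ix (io' (b, true)) i = i := by
          unfold ix
          by_cases hib : i = b
          · rw [hib, io'_self]; rfl
          · rw [io'_other hib]
        rw [this, h1]
      · rw [Subgroup.coe_mul, Equiv.Perm.mul_apply]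
        by_cases hib : i = b
        · rw [hib, io'_self, SP.map_nv, hb', nv_nv]
        · rw [io'_other hib]
          exact h2 i (by simp [hib, hi])

end sign

end Pool.Agent.H846R3.Sq
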