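import Pool.Agent.H846R3.Fin1

set_option autoImplicit false
set_option linter.unusedSectionVars false

namespace Pool.Agent.H846R3.Sq
open Pool.Agent.Helper156.OF

section

variable {α P : Type} [DecidableEq α] [Fintype α] [Group P] {W : SP α →* P}
    {E : Lt α → Lt α → P}

lemma E_ix (R : Rel W E) (sq : ∀ x a, E x a * E x a = 1)
    (hK : ∀ y z : Lt α, y.1 ≠ z.1 → KK E y z = 1) {x a : Lt α} (h : x.1 ≠ a.1) :
    E x a = E (x.1, true) (a.1, true) := by
  rw [E_congr R sq (a := a) (a' := (a.1, true)) rfl]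
  rcases fst_eq_iff.1 (show x.1 = ((x.1, true) : Lt α).1 from rfl) with h1 | h1
  · rw [h1]
  · have := hK (x.1, true) (a.1, true) h
    unfold KK at this
    rw [← h1] at this
    rw [← Einv sq (x.1, true)]
    exact (inv_eq_of_mul_eq_one_right this).symm

end

lemma valid_sp {α : Type} [DecidableEq α] (σ : SP α) {x a : Lt α} (h : x.1 ≠ a.1) :
    ((σ : Equiv.Perm (Lt α)) x).1 ≠ ((σ : Equiv.Perm (Lt α)) a).1 := by
  rw [ix_eq, ix_eq]
  exact fun h' => h (ix_inj σ h')

/-- Transitivity on pairs of letters. -/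
lemma exists_sp' {α : Type} [DecidableEq α] {x a y b : Lt α} (h1 : x.1 ≠ a.1) (h2 : y.1 ≠ b.1) :
    ∃ w : SP α, (w : Equiv.Perm (Lt α)) x = y ∧ (w : Equiv.Perm (Lt α)) a = b := by
  set a' := (swp x y : Equiv.Perm (Lt α)) a with ha'
  have h3 : y.1 ≠ a'.1 := by
    have := valid_sp (swp x y) h1
    rwa [swp_left] at this
  refine ⟨swp a' b * swp x y, ?_, ?_⟩
  · rw [Subgroup.coe_mul, Equiv.Perm.mul_apply, swp_left]
    exact swp_other h3 h2
  · rw [Subgroup.coe_mul, Equiv.Perm.mul_apply, ← ha', swp_left]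

section

variable {α : Type} [DecidableEq α] [Fintype α]

/-- The normal closure of the square of a transvection. -/
def MM (i j : α) : Subgroup (MulAut (FreeGroup α)) :=
  Subgroup.normalClosure {eAut (i, true) (j, true) * eAut (i, true) (j, true)}

instance (i j : α) : (MM i j).Normal := Subgroup.normalClosure_normal

lemma MM_sq {i j : α} (hij : i ≠ j) (x a : Lt α) : eAut x a * eAut x a ∈ MM i j := by
  by_cases h : x.1 = a.1
  · rw [eAut_junk x a h, mul_one]; exact one_mem _
  · obtain ⟨w, hw1, hw2⟩ := exists_sp' (x := ((i, true) : Lt α)) (a := (j, true)) (y := x) (b := a)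
      hij h
    have h0 : eAut (i, true) (j, true) * eAut (i, true) (j, true) ∈ MM i j :=
      Subgroup.subset_normalClosure rfl
    have h1 := (inferInstance : (MM i j).Normal).conj_mem _ h0 (toAut w)
    have h2 := rel_aut.e0 w (i, true) (j, true)
    rw [hw1, hw2] at h2
    have h3 : toAut w * (eAut (i, true) (j, true) * eAut (i, true) (j, true)) * (toAut w)⁻¹ =
        eAut x a * eAut x a := by
      rw [← h2]; group
    rwa [h3] at h1

lemma MM_KS {i j : α} (hij : i ≠ j) : MM i j ≤ KS α := by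
  unfold MM
  apply Subgroup.normalClosure_le_normal
  rintro _ rfl
  exact e2_KS hij

/-- the character which is `-1` at `j` only. -/
def cj (j : α) : FreeGroup α →* ℤˣ := FreeGroup.lift (fun k => if k = j then -1 else 1)

lemma cj_self (j : α) : cj j (FreeGroup.of j) = -1 := by simp [cj]

lemma cj_ne {j k : α} (h : k ≠ j) : cj j (FreeGroup.of k) = 1 := by simp [cj, h]

theorem core (h3 : ∀ i j : α, ∃ k, k ≠ i ∧ k ≠ j) {i0 j0 : α} (hij : i0 ≠ j0)
    (ψ : MulAut (FreeGroup α)) (hψ : ∀ (f : FreeGroup α →* S3) x, f (ψ x) = f x) :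
    ψ ∈ MM i0 j0 := by
  let π : MulAut (FreeGroup α) →* MulAut (FreeGroup α) ⧸ MM i0 j0 := QuotientGroup.mk' (MM i0 j0)
  have hπ : ∀ g, π g = 1 ↔ g ∈ MM i0 j0 := fun g => QuotientGroup.eq_one_iff g
  let W : SP α →* MulAut (FreeGroup α) ⧸ MM i0 j0 := π.comp toAut
  let E : Lt α → Lt α → MulAut (FreeGroup α) ⧸ MM i0 j0 := fun x a => π (eAut x a)
  have R : Rel W E := Rel.map' rel_aut π
  have sq : ∀ x a, E x a * E x a = 1 := by
    intro x a
    show π (eAut x a) * π (eAut x a) = 1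
    rw [← map_mul, hπ]
    exact MM_sq hij x a
  have gen : ∀ q, q ∈ Subgroup.closure
      (Set.range W ∪ {q | ∃ x a : Lt α, x.1 ≠ a.1 ∧ q = E x a}) := by
    intro q
    obtain ⟨φ, rfl⟩ := QuotientGroup.mk'_surjective (MM i0 j0) q
    have h1 := nielsen_generation φ
    have h2 := Subgroup.mem_map_of_mem π h1
    rw [MonoidHom.map_closure] at h2
    refine Subgroup.closure_mono ?_ h2
    rintro _ ⟨φ, hφ, rfl⟩
    rcases hφ with ⟨σ, rfl⟩ | ⟨x, a, hxa, rfl⟩
    · exact Or.inl ⟨σ, rfl⟩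
    · exact Or.inr ⟨x, a, hxa, rfl⟩
  have hN : (N1 E).Normal := N1_normal R sq h3 gen
  let μ : MulAut (FreeGroup α) ⧸ MM i0 j0 →* (MulAut (FreeGroup α) ⧸ MM i0 j0) ⧸ N1 E :=
    QuotientGroup.mk' (N1 E)
  have hμ : ∀ g, μ g = 1 ↔ g ∈ N1 E := fun g => QuotientGroup.eq_one_iff g
  let Ψ : MulAut (FreeGroup α) →*
      ((MulAut (FreeGroup α) ⧸ MM i0 j0) ⧸ N1 E) × Equiv.Perm (α → ZMod 2) :=
    (μ.comp π).prod mm
  have R1 : Rel (Ψ.comp toAut) (fun x a => Ψ (eAut x a)) := Rel.map' rel_aut Ψ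
  have mmsq : ∀ {x a : Lt α}, x.1 ≠ a.1 → mm (eAut x a) * mm (eAut x a) = 1 := by
    intro x a h
    ext1 v
    rw [Equiv.Perm.mul_apply, mm_eAut h, mm_eAut h, Function.update_self,
      Function.update_of_ne (Ne.symm h), Function.update_idem, add_assoc]
    have : v a.1 + v a.1 = 0 := CharTwo.add_self_eq_zero _
    rw [this, add_zero, Function.update_eq_self]
    rfl
  have sq1 : ∀ x a : Lt α, Ψ (eAut x a) * Ψ (eAut x a) = 1 := by
    intro x a
    by_cases h : x.1 = a.1
    · rw [eAut_junk x a h, map_one, mul_one]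
    · refine Prod.ext ?_ ?_
      · show μ (E x a) * μ (E x a) = 1
        rw [← map_mul, sq, map_one]
      · exact mmsq h
  have hK : ∀ y z : Lt α, y.1 ≠ z.1 → KK (fun x a => Ψ (eAut x a)) y z = 1 := by
    intro y z h
    refine Prod.ext ?_ ?_
    · show μ (E y z) * μ (E (nv y) z) = 1
      rw [← map_mul, hμ]
      exact Subgroup.subset_closure ⟨y, z, h, rfl⟩
    · show mm (eAut y z) * mm (eAut (nv y) z) = 1
      have : mm (eAut (nv y) z) = mm (eAut y z) := by
        ext1 v
        rw [mm_eAut h, mm_eAut (by simpa using h)]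
        rfl
      rw [this, mmsq h]
  have D := toDat R1 sq1 hK (MonoidHom.snd _ _) (fun σ v i => mm_toAut σ v i)
    (fun i j v h => mm_eAut (x := (i, true)) (a := (j, true)) h v)
  have hG : ψ ∈ G2 α := triv_G2 hψ
  have hmm : mm ψ = 1 := G2_mm hG
  have hmem : Ψ ψ ∈ Dat.Q (Ψ.comp toAut) (fun i j => Ψ (eAut (i, true) (j, true)))
      ((Finset.univ : Finset α) : Set α) := by
    have h1 := nielsen_generation ψ
    have h2 := Subgroup.mem_map_of_mem Ψ h1
    rw [MonoidHom.map_closure] at h2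
    refine Subgroup.closure_mono ?_ h2
    rintro _ ⟨φ, hφ, rfl⟩
    rcases hφ with ⟨σ, rfl⟩ | ⟨x, a, hxa, rfl⟩
    · exact Or.inl ⟨σ, by simp, rfl⟩
    · exact Or.inr ⟨x.1, by simp, a.1, by simp, hxa, E_ix R1 sq1 hK hxa⟩
  obtain ⟨σ, hσ, hσe⟩ := D.main Finset.univ (Ψ ψ) hmem hmm
  have h1 : μ (π ψ) = μ (W σ) := congrArg Prod.fst hσe
  -- sign changes
  have h2 : W σ ∈ N1 E ∨ W σ * W (io' (i0, true)) ∈ N1 E :=
    D_elem R sq hN i0 Finset.univ σ hσ (fun i hi => absurd (Finset.mem_univ i) hi)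
  have h4 : π ψ ∈ N1 E ∨ π (ψ * toAut (io' (i0, true))) ∈ N1 E := by
    rcases h2 with h2 | h2
    · left
      rw [← hμ] at h2 ⊢
      rw [h1, h2]
    · right
      rw [← hμ] at h2 ⊢
      rw [map_mul, map_mul, h1, ← map_mul]
      exact h2
  -- generators of N1
  have hpick : ∀ l : α, ∃ y, y ≠ l := fun l => by
    obtain ⟨k, hk, _⟩ := h3 l l
    exact ⟨k, hk⟩
  choose pick hpick using hpick
  let g : α → MulAut (FreeGroup α) ⧸ MM i0 j0 := fun l => π (KA (pick l) l)
  have hg : ∀ l, g l = KK E (pick l, true) (l, true) := fun l => map_mul π _ _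
  have hN1 : N1 E ≤ Subgroup.closure (g '' ((Finset.univ : Finset α) : Set α)) := by
    unfold N1
    rw [Subgroup.closure_le]
    rintro _ ⟨y, z, hyz, rfl⟩
    refine Subgroup.subset_closure ⟨z.1, by simp, ?_⟩
    rw [hg]
    by_cases hy : y.1 = pick z.1
    · exact KK_congr R sq (y := (pick z.1, true)) (z := (z.1, true)) hy.symm rfl
    · rw [KK_eq R sq (a := y) (b := (pick z.1, true)) (c := z) hy hyz (hpick z.1)]
      exact KK_congr R sq rfl rfl
  have gcomm : ∀ b l, b ≠ l → Commute (g b) (g l) := by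
    intro b l hbl
    obtain ⟨k, hk1, hk2⟩ := h3 b l
    have e1 : g b = KK E (k, true) (b, true) := by
      rw [hg]
      by_cases hy : pick b = k
      · rw [hy]
      · exact KK_eq R sq (a := (pick b, true)) (b := (k, true)) (c := (b, true)) hy (hpick b) hk1
    have e2 : g l = KK E (k, true) (l, true) := by
      rw [hg]
      by_cases hy : pick l = k
      · rw [hy]
      · exact KK_eq R sq (a := (pick l, true)) (b := (k, true)) (c := (l, true)) hy (hpick l) hk2
    rw [e1, e2]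
    exact KK_comm R sq hk1 hk2
  have gsq : ∀ b, g b * g b = 1 := by
    intro b
    rw [hg]
    exact KK_sq R sq _ _
  -- lifting
  have hlift : ∀ (T : Finset α), ∀ c ∈ Subgroup.closure (g '' (T : Set α)),
      ∃ κ ∈ Subgroup.closure ((fun l => KA (pick l) l) '' (T : Set α)), π κ = c := by
    intro T c hc
    have : g '' (T : Set α) = π '' ((fun l => KA (pick l) l) '' (T : Set α)) := by
      rw [Set.image_image]
    rw [this, ← MonoidHom.map_closure] at hc
    obtain ⟨κ, hκ, rfl⟩ := hc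
    exact ⟨κ, hκ, rfl⟩
  have hSGcl : ∀ (χ : FreeGroup α →* ℤˣ) (T : Finset α), (∀ l ∈ T, χ (FreeGroup.of l) = 1) →
      ∀ κ ∈ Subgroup.closure ((fun l => KA (pick l) l) '' (T : Set α)), SG χ κ 1 := by
    intro χ T hT κ hκ
    induction hκ using Subgroup.closure_induction with
    | mem x hx =>
      obtain ⟨l, hl, rfl⟩ := hx
      exact SG_KA_one (hpick l) (hT l hl)
    | one => exact SG.one χ
    | mul x y _ _ h1 h2 => simpa using h1.mul h2
    | inv x _ h => simpa using h.inv
  -- transfer of signs modulo MM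
  have htr : ∀ (χ : FreeGroup α →* ℤˣ) (φ κ : MulAut (FreeGroup α)) (u : ℤˣ), π φ = π κ →
      SG χ κ u → SG χ φ u := by
    intro χ φ κ u h hs
    have h5 : φ * κ⁻¹ ∈ MM i0 j0 := by
      rw [← hπ, map_mul, map_inv, h, mul_inv_cancel]
    have h6 : SG χ (φ * κ⁻¹) 1 := MM_KS hij h5 χ
    have h7 := h6.mul hs
    rwa [inv_mul_cancel_right, one_mul] at h7
  have hclaim : ∀ (T : Finset α) (κ : MulAut (FreeGroup α)),
      π κ ∈ Subgroup.closure (g '' (T : Set α)) → (∀ j, SG (cj j) κ 1) → π κ = 1 := by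
    intro T
    induction T using Finset.induction_on with
    | empty => intro κ h _; simpa using h
    | insert b T hb ih =>
      intro κ h hs
      rw [Finset.coe_insert] at h
      rcases closure_insert_invol g (T : Set α) b
        (fun l hl => gcomm b l (fun h => hb (h ▸ hl))) (gsq b) h with h' | ⟨c, hc, hce⟩
      · exact ih κ h' hs
      · exfalso
        obtain ⟨κ', hκ', hκe⟩ := hlift T c hc
        have s1 : SG (cj b) κ' 1 :=
          hSGcl (cj b) T (fun l hl => cj_ne (fun h => hb (h ▸ hl))) κ' hκ'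
        have s2 : SG (cj b) (KA (pick b) b) (-1) :=
          SG_KA_neg (hpick b) (cj_ne (hpick b)) (cj_self b)
        have s3 := s1.mul s2
        have s4 : SG (cj b) κ (1 * (-1)) := htr _ κ (κ' * KA (pick b) b) _ (by
          rw [hce, map_mul, hκe]) s3
        have s5 := s4.uniq (hs b)
        revert s5
        decide
  have hψs : ∀ χ, SG χ ψ 1 := fun χ => SG.of_triv hG (fun f _ k => hψ f _)
  rcases h4 with h4 | h4
  · rw [← hπ]
    exact hclaim Finset.univ ψ (hN1 h4) (fun j => hψs _)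
  · exfalso
    obtain ⟨κ, hκ, hκe⟩ := hlift Finset.univ _ (hN1 h4)
    have s1 : SG (1 : FreeGroup α →* ℤˣ) κ 1 := hSGcl 1 Finset.univ (fun l _ => rfl) κ hκ
    have s2 : SG (1 : FreeGroup α →* ℤˣ) (ψ * toAut (io' (i0, true))) (1 * (-1)) :=
      (hψs 1).mul (SG_io i0)
    have s3 := htr _ _ _ _ hκe s2
    have s4 := s3.uniq s1
    revert s4
    decide

end

end Pool.Agent.H846R3.Sq
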