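import Pool.Agent.H846R3.Fin2

set_option autoImplicit false
set_option linter.unusedSectionVars false

namespace Pool.Agent.H846R3.Sq
open Pool.Agent.Helper156.OF

section

variable {α : Type} [DecidableEq α] [Fintype α]

theorem core2 (h3 : ∀ i j : α, ∃ k, k ≠ i ∧ k ≠ j) {i0 j0 : α} (hij : i0 ≠ j0)
    (ψ : MulAut (FreeGroup α)) (hG : ψ ∈ G2 α) (hψc : ∀ j, SG (cj j) ψ 1)
    (hψ1 : SG (1 : FreeGroup α →* ℤˣ) ψ 1) :
    ψ ∈ MM i0 j0 := by
  let π : MulAut (FreeGroup α) →* MulAut (FreeGroup α) ⧸ MM i0 j0 := QuotientGroup.mk' (MM i0 j0)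
  have hπ : ∀ g, π g = 1 ↔ g ∈ MM i0 j0 := fun g => QuotientGroup.eq_one_iff g
  let W : SP α →* MulAut (FreeGroup α) ⧸ MM i0 j0 := π.comp toAut
  let E : Lt α → Lt α → MulAut (FreeGroup α) ⧸ MM i0 j0 := fun x a => π (eAut x a)
  have R : Rel W E := Rel.map' rel_aut π
  have sq : ∀ x a, E x a * E x a = 1 := by
    intro x a
    show π (eAut x a) * π (eAut x a) = 1
    rw [← map_mul, hπ]
    exact MM_sq hij x a
  have gen : ∀ q, q ∈ Subgroup.closure
      (Set.range W ∪ {q | ∃ x a : Lt α, x.1 ≠ a.1 ∧ q = E x a}) := by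
    intro q
    obtain ⟨φ, rfl⟩ := QuotientGroup.mk'_surjective (MM i0 j0) q
    have h1 := nielsen_generation φ
    have h2 := Subgroup.mem_map_of_mem π h1
    rw [MonoidHom.map_closure] at h2
    refine Subgroup.closure_mono ?_ h2
    rintro _ ⟨φ, hφ, rfl⟩
    rcases hφ with ⟨σ, rfl⟩ | ⟨x, a, hxa, rfl⟩
    · exact Or.inl ⟨σ, rfl⟩
    · exact Or.inr ⟨x, a, hxa, rfl⟩
  have hN : (N1 E).Normal := N1_normal R sq h3 gen
  let μ : MulAut (FreeGroup α) ⧸ MM i0 j0 →* (MulAut (FreeGroup α) ⧸ MM i0 j0) ⧸ N1 E :=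
    QuotientGroup.mk' (N1 E)
  have hμ : ∀ g, μ g = 1 ↔ g ∈ N1 E := fun g => QuotientGroup.eq_one_iff g
  let Ψ : MulAut (FreeGroup α) →*
      ((MulAut (FreeGroup α) ⧸ MM i0 j0) ⧸ N1 E) × Equiv.Perm (α → ZMod 2) :=
    (μ.comp π).prod mm
  have R1 : Rel (Ψ.comp toAut) (fun x a => Ψ (eAut x a)) := Rel.map' rel_aut Ψ
  have mmsq : ∀ {x a : Lt α}, x.1 ≠ a.1 → mm (eAut x a) * mm (eAut x a) = 1 := by
    intro x a h
    ext1 v
    rw [Equiv.Perm.mul_apply, mm_eAut h, mm_eAut h, Function.update_self,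
      Function.update_of_ne (Ne.symm h), Function.update_idem, add_assoc]
    have : v a.1 + v a.1 = 0 := CharTwo.add_self_eq_zero _
    rw [this, add_zero, Function.update_eq_self]
    rfl
  have sq1 : ∀ x a : Lt α, Ψ (eAut x a) * Ψ (eAut x a) = 1 := by
    intro x a
    by_cases h : x.1 = a.1
    · rw [eAut_junk x a h, map_one, mul_one]
    · refine Prod.ext ?_ ?_
      · show μ (E x a) * μ (E x a) = 1
        rw [← map_mul, sq, map_one]
      · exact mmsq h
  have hK : ∀ y z : Lt α, y.1 ≠ z.1 → KK (fun x a => Ψ (eAut x a)) y z = 1 := by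
    intro y z h
    refine Prod.ext ?_ ?_
    · show μ (E y z) * μ (E (nv y) z) = 1
      rw [← map_mul, hμ]
      exact Subgroup.subset_closure ⟨y, z, h, rfl⟩
    · show mm (eAut y z) * mm (eAut (nv y) z) = 1
      have : mm (eAut (nv y) z) = mm (eAut y z) := by
        ext1 v
        rw [mm_eAut h, mm_eAut (by simpa using h)]
        rfl
      rw [this, mmsq h]
  have D := toDat R1 sq1 hK (MonoidHom.snd _ _) (fun σ v i => mm_toAut σ v i)
    (fun i j v h => mm_eAut (x := (i, true)) (a := (j, true)) h v)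
  have hmm : mm ψ = 1 := G2_mm hG
  have hmem : Ψ ψ ∈ Dat.Q (Ψ.comp toAut) (fun i j => Ψ (eAut (i, true) (j, true)))
      ((Finset.univ : Finset α) : Set α) := by
    have h1 := nielsen_generation ψ
    have h2 := Subgroup.mem_map_of_mem Ψ h1
    rw [MonoidHom.map_closure] at h2
    refine Subgroup.closure_mono ?_ h2
    rintro _ ⟨φ, hφ, rfl⟩
    rcases hφ with ⟨σ, rfl⟩ | ⟨x, a, hxa, rfl⟩
    · exact Or.inl ⟨σ, by simp, rfl⟩
    · exact Or.inr ⟨x.1, by simp, a.1, by simp, hxa, E_ix R1 sq1 hK hxa⟩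
  obtain ⟨σ, hσ, hσe⟩ := D.main Finset.univ (Ψ ψ) hmem hmm
  have h1 : μ (π ψ) = μ (W σ) := congrArg Prod.fst hσe
  -- sign changes
  have h2 : W σ ∈ N1 E ∨ W σ * W (io' (i0, true)) ∈ N1 E :=
    D_elem R sq hN i0 Finset.univ σ hσ (fun i hi => absurd (Finset.mem_univ i) hi)
  have h4 : π ψ ∈ N1 E ∨ π (ψ * toAut (io' (i0, true))) ∈ N1 E := by
    rcases h2 with h2 | h2
    · left
      rw [← hμ] at h2 ⊢
      rw [h1, h2]
    · right
      rw [← hμ] at h2 ⊢
      rw [map_mul, map_mul, h1, ← map_mul]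
      exact h2
  -- generators of N1
  have hpick : ∀ l : α, ∃ y, y ≠ l := fun l => by
    obtain ⟨k, hk, _⟩ := h3 l l
    exact ⟨k, hk⟩
  choose pick hpick using hpick
  let g : α → MulAut (FreeGroup α) ⧸ MM i0 j0 := fun l => π (KA (pick l) l)
  have hg : ∀ l, g l = KK E (pick l, true) (l, true) := fun l => map_mul π _ _
  have hN1 : N1 E ≤ Subgroup.closure (g '' ((Finset.univ : Finset α) : Set α)) := by
    unfold N1
    rw [Subgroup.closure_le]
    rintro _ ⟨y, z, hyz, rfl⟩
    refine Subgroup.subset_closure ⟨z.1, by simp, ?_⟩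
    rw [hg]
    by_cases hy : y.1 = pick z.1
    · exact KK_congr R sq (y := (pick z.1, true)) (z := (z.1, true)) hy.symm rfl
    · rw [KK_eq R sq (a := y) (b := (pick z.1, true)) (c := z) hy hyz (hpick z.1)]
      exact KK_congr R sq rfl rfl
  have gcomm : ∀ b l, b ≠ l → Commute (g b) (g l) := by
    intro b l hbl
    obtain ⟨k, hk1, hk2⟩ := h3 b l
    have e1 : g b = KK E (k, true) (b, true) := by
      rw [hg]
      by_cases hy : pick b = k
      · rw [hy]
      · exact KK_eq R sq (a := (pick b, true)) (b := (k, true)) (c := (b, true)) hy (hpick b) hk1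
    have e2 : g l = KK E (k, true) (l, true) := by
      rw [hg]
      by_cases hy : pick l = k
      · rw [hy]
      · exact KK_eq R sq (a := (pick l, true)) (b := (k, true)) (c := (l, true)) hy (hpick l) hk2
    rw [e1, e2]
    exact KK_comm R sq hk1 hk2
  have gsq : ∀ b, g b * g b = 1 := by
    intro b
    rw [hg]
    exact KK_sq R sq _ _
  -- lifting
  have hlift : ∀ (T : Finset α), ∀ c ∈ Subgroup.closure (g '' (T : Set α)),
      ∃ κ ∈ Subgroup.closure ((fun l => KA (pick l) l) '' (T : Set α)), π κ = c := by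
    intro T c hc
    have : g '' (T : Set α) = π '' ((fun l => KA (pick l) l) '' (T : Set α)) := by
      rw [Set.image_image]
    rw [this, ← MonoidHom.map_closure] at hc
    obtain ⟨κ, hκ, rfl⟩ := hc
    exact ⟨κ, hκ, rfl⟩
  have hSGcl : ∀ (χ : FreeGroup α →* ℤˣ) (T : Finset α), (∀ l ∈ T, χ (FreeGroup.of l) = 1) →
      ∀ κ ∈ Subgroup.closure ((fun l => KA (pick l) l) '' (T : Set α)), SG χ κ 1 := by
    intro χ T hT κ hκ
    induction hκ using Subgroup.closure_induction with
    | mem x hx =>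
      obtain ⟨l, hl, rfl⟩ := hx
      exact SG_KA_one (hpick l) (hT l hl)
    | one => exact SG.one χ
    | mul x y _ _ h1 h2 => simpa using h1.mul h2
    | inv x _ h => simpa using h.inv
  -- transfer of signs modulo MM
  have htr : ∀ (χ : FreeGroup α →* ℤˣ) (φ κ : MulAut (FreeGroup α)) (u : ℤˣ), π φ = π κ →
      SG χ κ u → SG χ φ u := by
    intro χ φ κ u h hs
    have h5 : φ * κ⁻¹ ∈ MM i0 j0 := by
      rw [← hπ, map_mul, map_inv, h, mul_inv_cancel]
    have h6 : SG χ (φ * κ⁻¹) 1 := MM_KS hij h5 χ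
    have h7 := h6.mul hs
    rwa [inv_mul_cancel_right, one_mul] at h7
  have hclaim : ∀ (T : Finset α) (κ : MulAut (FreeGroup α)),
      π κ ∈ Subgroup.closure (g '' (T : Set α)) → (∀ j, SG (cj j) κ 1) → π κ = 1 := by
    intro T
    induction T using Finset.induction_on with
    | empty => intro κ h _; simpa using h
    | insert b T hb ih =>
      intro κ h hs
      rw [Finset.coe_insert] at h
      rcases closure_insert_invol g (T : Set α) b
        (fun l hl => gcomm b l (fun h => hb (h ▸ hl))) (gsq b) h with h' | ⟨c, hc, hce⟩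
      · exact ih κ h' hs
      · exfalso
        obtain ⟨κ', hκ', hκe⟩ := hlift T c hc
        have s1 : SG (cj b) κ' 1 :=
          hSGcl (cj b) T (fun l hl => cj_ne (fun h => hb (h ▸ hl))) κ' hκ'
        have s2 : SG (cj b) (KA (pick b) b) (-1) :=
          SG_KA_neg (hpick b) (cj_ne (hpick b)) (cj_self b)
        have s3 := s1.mul s2
        have s4 : SG (cj b) κ (1 * (-1)) := htr _ κ (κ' * KA (pick b) b) _ (by
          rw [hce, map_mul, hκe]) s3
        have s5 := s4.uniq (hs b)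
        revert s5
        decide
  rcases h4 with h4 | h4
  · rw [← hπ]
    exact hclaim Finset.univ ψ (hN1 h4) hψc
  · exfalso
    obtain ⟨κ, hκ, hκe⟩ := hlift Finset.univ _ (hN1 h4)
    have s1 : SG (1 : FreeGroup α →* ℤˣ) κ 1 := hSGcl 1 Finset.univ (fun l _ => rfl) κ hκ
    have s2 : SG (1 : FreeGroup α →* ℤˣ) (ψ * toAut (io' (i0, true))) (1 * (-1)) :=
      hψ1.mul (SG_io i0)
    have s3 := htr _ _ _ _ hκe s2
    have s4 := s3.uniq s1
    revert s4
    decide


/-! ### the index of the normal closure -/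

/-- the relevant characters -/
def chi : Option α → (FreeGroup α →* ℤˣ)
  | none => 1
  | some j => cj j

/-- all the signs together -/
noncomputable def Phi : G2 α →* (Option α → ℤˣ) :=
  MonoidHom.pi (fun o => (Equiv.Perm.sign : Equiv.Perm (X (chi o)) →* ℤˣ).comp (pm (chi o)))

lemma Phi_apply (ψ : G2 α) (o : Option α) :
    Phi ψ o = Equiv.Perm.sign (pm (chi o) ψ) := rfl

lemma SG_Phi {ψ : MulAut (FreeGroup α)} (h : ψ ∈ G2 α) {o : Option α} {u : ℤˣ}
    (hs : SG (chi o) ψ u) : Phi ⟨ψ, h⟩ o = u := by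
  obtain ⟨_, rfl⟩ := hs
  rfl

lemma MM_le_G2 {i j : α} (hij : i ≠ j) : MM i j ≤ G2 α := by
  intro ψ hψ
  obtain ⟨h, _⟩ := MM_KS hij hψ 1
  exact h

lemma ker_Phi (h3 : ∀ i j : α, ∃ k, k ≠ i ∧ k ≠ j) {i j : α} (hij : i ≠ j) :
    (Phi (α := α)).ker = (MM i j).subgroupOf (G2 α) := by
  ext ⟨ψ, h⟩
  rw [MonoidHom.mem_ker, Subgroup.mem_subgroupOf]
  constructor
  · intro h1
    refine core2 h3 hij ψ h (fun j => ⟨h, ?_⟩) ⟨h, ?_⟩
    · exact congrFun h1 (some j)
    · exact congrFun h1 none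
  · intro h1
    funext o
    exact SG_Phi h (MM_KS hij h1 (chi o))

lemma Phi_surj (h3 : ∀ i j : α, ∃ k, k ≠ i ∧ k ≠ j) (i0 : α) :
    (Phi (α := α)).range = ⊤ := by
  rw [eq_top_iff]
  have hs : ∀ (l : α) (u : ℤˣ), Pi.mulSingle (some l) u ∈ (Phi (α := α)).range := by
    intro l u
    rcases Int.units_eq_one_or u with rfl | rfl
    · rw [Pi.mulSingle_one]; exact one_mem _
    · obtain ⟨k, hk, _⟩ := h3 l l
      refine ⟨⟨KA k l, KA_G2 hk⟩, ?_⟩
      funext o
      cases o with
      | none =>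
        rw [SG_Phi (KA_G2 hk) (SG_KA_one hk rfl : SG (chi none) (KA k l) 1)]
        rw [Pi.mulSingle_eq_of_ne (by simp)]
      | some j =>
        by_cases hj : j = l
        · subst hj
          rw [Pi.mulSingle_eq_same]
          exact SG_Phi (KA_G2 hk) (SG_KA_neg hk (cj_ne hk) (cj_self j) : SG (chi (some j)) _ _)
        · rw [SG_Phi (KA_G2 hk) (SG_KA_one hk (cj_ne (Ne.symm hj)) :
            SG (chi (some j)) (KA k l) 1)]
          rw [Pi.mulSingle_eq_of_ne (by simpa using hj)]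
  have h1 : ∀ t : Option α → ℤˣ, t none = 1 → t ∈ (Phi (α := α)).range := by
    intro t ht
    apply Subgroup.pi_mem_of_mulSingle_mem
    intro o
    cases o with
    | none => rw [ht, Pi.mulSingle_one]; exact one_mem _
    | some l => exact hs l _
  intro t _
  rcases Int.units_eq_one_or (t none) with h | h
  · exact h1 t h
  · obtain ⟨hG, hsg⟩ := SG_io i0
    have hr : Phi ⟨_, hG⟩ ∈ (Phi (α := α)).range := ⟨_, rfl⟩
    have hn : Phi ⟨_, hG⟩ none = -1 := hsg
    have h2 : t * Phi ⟨_, hG⟩ ∈ (Phi (α := α)).range := by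
      apply h1
      rw [Pi.mul_apply, h, hn]
      decide
    have h4 := mul_mem h2 (inv_mem hr)
    rwa [mul_inv_cancel_right] at h4

lemma relIndex_MM (h3 : ∀ i j : α, ∃ k, k ≠ i ∧ k ≠ j) {i j : α} (hij : i ≠ j) :
    (MM i j).relIndex (G2 α) = 2 ^ (Fintype.card α + 1) := by
  unfold Subgroup.relIndex
  rw [← ker_Phi h3 hij, Subgroup.index_ker, Phi_surj h3 i, Nat.card_congr Subgroup.topEquiv.toEquiv,
    Nat.card_eq_fintype_card, Fintype.card_fun, Fintype.card_option]
  congr 1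

/-! ### the index of the level two subgroup -/

lemma fv_add (v w : α → ZMod 2) (x : FreeGroup α) : fv (v + w) x = fv v x * fv w x := by
  have : fv (v + w) = fv v * fv w := by
    ext1 k
    rw [MonoidHom.mul_apply, fv_of, fv_of, fv_of]
    rfl
  rw [this, MonoidHom.mul_apply]

lemma mm_add (ψ : MulAut (FreeGroup α)) (v w : α → ZMod 2) :
    mm ψ (v + w) = mm ψ v + mm ψ w := by
  funext i
  rw [Pi.add_apply, mm_apply, mm_apply, mm_apply, fv_add]
  rfl

/-- the linear action -/
noncomputable def lin : MulAut (FreeGroup α) →* ((α → ZMod 2) ≃ₗ[ZMod 2] (α → ZMod 2)) where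
  toFun ψ :=
    { toFun := mm ψ
      invFun := (mm ψ).symm
      map_add' := mm_add ψ
      map_smul' := fun c v => by
        rw [RingHom.id_apply]
        have hc : ∀ c : ZMod 2, c = 0 ∨ c = 1 := by decide
        rcases hc c with rfl | rfl
        · rw [zero_smul, zero_smul]
          have := mm_add ψ 0 0
          rw [add_zero] at this
          exact left_eq_add.mp this
        · rw [one_smul, one_smul]
      left_inv := (mm ψ).left_inv
      right_inv := (mm ψ).right_inv }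
  map_one' := by
    ext1 v
    exact mf_one _
  map_mul' a b := by
    ext1 v
    exact mf_mul _ _ _

lemma lin_apply (ψ : MulAut (FreeGroup α)) (v : α → ZMod 2) : lin ψ v = mm ψ v := rfl

lemma mm_G2 {ψ : MulAut (FreeGroup α)} (hψ : mm ψ = 1) : ψ ∈ G2 α := by
  have hψ' : mm ψ⁻¹ = 1 := by rw [map_inv, hψ, inv_one]
  apply mem_G2_of
  intro χ k
  let v : α → ZMod 2 := fun i => if χ (FreeGroup.of i) = 1 then 0 else 1
  let ee : Multiplicative (ZMod 2) →* ℤˣ :=
    { toFun := fun u => if Multiplicative.toAdd u = 0 then 1 else -1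
      map_one' := by simp
      map_mul' := by decide }
  have h : χ = ee.comp (fv v) := by
    ext1 i
    rw [MonoidHom.comp_apply, fv_of]
    show χ (FreeGroup.of i) = if (if χ (FreeGroup.of i) = 1 then (0 : ZMod 2) else 1) = 0 then 1
      else -1
    rcases Int.units_eq_one_or (χ (FreeGroup.of i)) with h | h
    · rw [h]; simp
    · rw [h]; decide
  have h2 : mm ψ⁻¹ v k = v k := by rw [hψ']; rfl
  rw [mm_apply, inv_inv] at h2
  have h3 : fv v (ψ (FreeGroup.of k)) = fv v (FreeGroup.of k) := by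
    rw [fv_of]
    exact h2
  rw [h, MonoidHom.comp_apply, MonoidHom.comp_apply, h3]

lemma ker_lin : (lin (α := α)).ker = G2 α := by
  ext ψ
  rw [MonoidHom.mem_ker]
  constructor
  · intro h
    apply mm_G2
    ext1 v
    exact congrArg (fun (g : (α → ZMod 2) ≃ₗ[ZMod 2] (α → ZMod 2)) => g v) h
  · intro h
    ext1 v
    rw [lin_apply, G2_mm h]
    rfl

lemma transvec_lift (L : List (Matrix.TransvectionStruct α (ZMod 2))) :
    ∃ ψ : MulAut (FreeGroup α), ∀ v, mm ψ v =
      ((L.map Matrix.TransvectionStruct.toMatrix).prod).mulVec v := by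
  induction L with
  | nil => exact ⟨1, fun v => by simp⟩
  | cons t L ih =>
    obtain ⟨ψ, hψ⟩ := ih
    have ht : ∃ φ : MulAut (FreeGroup α), ∀ v, mm φ v = t.toMatrix.mulVec v := by
      have hc : ∀ c : ZMod 2, c = 0 ∨ c = 1 := by decide
      rcases hc t.c with h | h
      · refine ⟨1, fun v => ?_⟩
        rw [Matrix.TransvectionStruct.toMatrix, h, Matrix.transvection_zero]
        simp
      · refine ⟨eAut (t.i, true) (t.j, true), fun v => ?_⟩
        rw [mm_eAut (x := (t.i, true)) (a := (t.j, true)) t.hij, Matrix.TransvectionStruct.toMatrix, h, Matrix.transvection,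
          Matrix.add_mulVec, Matrix.one_mulVec, Matrix.single_mulVec]
        funext k
        by_cases hk : k = t.i
        · subst hk
          simp
        · rw [Function.update_of_ne hk, Pi.add_apply, Function.update_of_ne hk]
          simp
    obtain ⟨φ, hφ⟩ := ht
    refine ⟨φ * ψ, fun v => ?_⟩
    rw [map_mul, Equiv.Perm.mul_apply, hψ, hφ, List.map_cons, List.prod_cons,
      Matrix.mulVec_mulVec]

lemma lin_surj : Function.Surjective (lin (α := α)) := by
  intro g
  obtain ⟨L, L', D, hM⟩ := Matrix.Pivot.exists_list_transvec_mul_diagonal_mul_list_transvec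
    (LinearMap.toMatrix' (g : (α → ZMod 2) →ₗ[ZMod 2] (α → ZMod 2)))
  have hdet : (LinearMap.toMatrix' (g : (α → ZMod 2) →ₗ[ZMod 2] (α → ZMod 2))).det ≠ 0 := by
    rw [LinearMap.det_toMatrix']
    exact (LinearEquiv.isUnit_det' g).ne_zero
  have hD : D = fun _ => 1 := by
    rw [hM, Matrix.det_mul, Matrix.det_mul, Matrix.det_diagonal] at hdet
    have hp : ∏ i, D i ≠ 0 := by
      intro h
      apply hdet
      rw [h]; ring
    funext i
    have hi := (Finset.prod_ne_zero_iff.1 hp) i (Finset.mem_univ i)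
    have hc : ∀ c : ZMod 2, c ≠ 0 → c = 1 := by decide
    exact hc _ hi
  obtain ⟨φ, hφ⟩ := transvec_lift (α := α) L
  obtain ⟨ψ, hψ⟩ := transvec_lift (α := α) L'
  refine ⟨φ * ψ, ?_⟩
  ext1 v
  rw [lin_apply, map_mul, Equiv.Perm.mul_apply, hψ, hφ, Matrix.mulVec_mulVec]
  have h1 : Matrix.diagonal D = (1 : Matrix α α (ZMod 2)) := by
    rw [hD]; exact Matrix.diagonal_one
  rw [h1, mul_one] at hM
  rw [← hM, LinearMap.toMatrix'_mulVec]
  rfl

lemma index_G2 : (G2 α).index = Nat.card (Matrix.GeneralLinearGroup α (ZMod 2)) := by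
  rw [← ker_lin, Subgroup.index_ker, MonoidHom.range_eq_top.2 lin_surj,
    Nat.card_congr Subgroup.topEquiv.toEquiv]
  exact (Nat.card_congr ((Matrix.GeneralLinearGroup.toLin.trans
    (LinearMap.GeneralLinearGroup.generalLinearEquiv _ _)).toEquiv)).symm

theorem index_MM (h3 : ∀ i j : α, ∃ k, k ≠ i ∧ k ≠ j) {i j : α} (hij : i ≠ j) :
    (MM i j).index = 2 ^ (Fintype.card α + 1) *
      Nat.card (Matrix.GeneralLinearGroup α (ZMod 2)) := by
  rw [← Subgroup.relIndex_mul_index (MM_le_G2 hij), relIndex_MM h3 hij, index_G2]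

end

end Pool.Agent.H846R3.Sq
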