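import Pool.Agent.H846R3.Abs2

set_option autoImplicit false
set_option linter.unusedSectionVars false

namespace Pool.Agent.H846R3.Sq
open Pool.Agent.Helper156.OF

lemma Rel.map' {α P P' : Type} [DecidableEq α] [Group P] [Group P'] {W : SP α →* P}
    {E : Lt α → Lt α → P} (R : Rel W E) (f : P →* P') :
    Rel (f.comp W) (fun x a => f (E x a)) where
  junk x a h := by simp [R.junk x a h]
  e0 w x a := by
    rw [← R.e0 w x a]; simp
  e1 x a := by rw [R.e1, map_inv]
  e2 x y a b h1 h2 h3 := (R.e2 x y a b h1 h2 h3).map f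
  e3 x y z h1 h2 h3 := by
    simp only [← map_mul, ← map_inv]
    rw [R.e3 x y z h1 h2 h3]
  e4 a b σ h h1 h2 h3 := by
    simp only [← map_mul, MonoidHom.comp_apply]
    rw [R.e4 a b σ h h1 h2 h3]

section

variable {α P : Type} [DecidableEq α] [Fintype α] [Group P] {W : SP α →* P}
    {E : Lt α → Lt α → P} (R : Rel W E) (sq : ∀ x a, E x a * E x a = 1)

include sq in
lemma Einv (x a : Lt α) : (E x a)⁻¹ = E x a := inv_eq_of_mul_eq_one_left (sq x a)

include R sq

lemma E_congr {x a a' : Lt α} (h : a.1 = a'.1) : E x a = E x a' := by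
  rcases fst_eq_iff.1 h with rfl | rfl
  · rfl
  · rw [R.e1, Einv sq]

lemma conj1 {x y z : Lt α} (h1 : x.1 ≠ y.1) (h2 : x.1 ≠ z.1) (h3 : y.1 ≠ z.1) :
    E y z * E x y * E y z = E x y * E x z := by
  have := R.e3 x y z h1 h2 h3
  rwa [Einv sq] at this

lemma commRow {x y z : Lt α} (h1 : x.1 ≠ y.1) (h2 : x.1 ≠ z.1) : Commute (E x y) (E x z) := by
  by_cases h3 : y.1 = z.1
  · rw [E_congr R sq h3]
  · have h := conj1 R sq h1 h2 h3
    have h4 : (E x y * E x z) * (E x y * E x z) = 1 := by
      rw [← h]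
      calc E y z * E x y * E y z * (E y z * E x y * E y z)
          = E y z * E x y * (E y z * E y z) * E x y * E y z := by group
        _ = E y z * (E x y * E x y) * E y z := by rw [sq]; group
        _ = 1 := by rw [sq, mul_one, sq]
    show E x y * E x z = E x z * E x y
    calc E x y * E x z = (E x y * E x z)⁻¹ := (inv_eq_of_mul_eq_one_left h4).symm
      _ = E x z * E x y := by rw [mul_inv_rev, Einv sq, Einv sq]

lemma cm {x y a b : Lt α} (h1 : x.1 ≠ b.1) (h2 : y.1 ≠ a.1) : Commute (E x a) (E y b) := by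
  by_cases hxy : x = y
  · subst hxy
    exact commRow R sq h2 h1
  · exact R.e2 x y a b hxy h1 h2

omit R sq in
/-- The product `E y z * E (nv y) z`. -/
def KK (E : Lt α → Lt α → P) (y z : Lt α) : P := E y z * E (nv y) z

lemma KK_nv (y z : Lt α) : KK E (nv y) z = KK E y z := by
  unfold KK
  rw [nv_nv]
  exact (R.comm_same z _ _).eq

lemma KK_congr {y z y' z' : Lt α} (h1 : y.1 = y'.1) (h2 : z.1 = z'.1) : KK E y z = KK E y' z' := by
  have h3 : KK E y z = KK E y z' := by
    unfold KK
    rw [E_congr R sq h2, E_congr R sq h2]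
  rw [h3]
  rcases fst_eq_iff.1 h1 with rfl | rfl
  · rfl
  · exact KK_nv R sq _ _

lemma KK_sq (y z : Lt α) : KK E y z * KK E y z = 1 := by
  unfold KK
  have h : E y z * E (nv y) z = E (nv y) z * E y z := (R.comm_same z y (nv y)).eq
  calc E y z * E (nv y) z * (E y z * E (nv y) z) = (E y z * E (nv y) z) * (E y z * E (nv y) z) := rfl
    _ = (E (nv y) z * E y z) * (E y z * E (nv y) z) := by rw [h]
    _ = E (nv y) z * (E y z * E y z) * E (nv y) z := by group
    _ = 1 := by rw [sq, mul_one, sq]

lemma KK_E_comm {y z x w : Lt α} (hyz : y.1 ≠ z.1) (hxw : x.1 ≠ w.1) (hxz : x.1 ≠ z.1) :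
    Commute (KK E y z) (E x w) := by
  by_cases hwy : w.1 = y.1
  · have e1 : E x w = E x y := E_congr R sq hwy
    have hxy : x.1 ≠ y.1 := hwy ▸ hxw
    rw [e1]
    have h1 := conj1 R sq (x := x) (y := y) (z := z) hxy hxz hyz
    have h2 := conj1 R sq (x := x) (y := nv y) (z := z) (by simpa using hxy) hxz
      (by simpa using hyz)
    rw [E_congr R sq (x := x) (a := nv y) (a' := y) (by simp)] at h2
    have h3 : Commute (E x z) (E y z) := R.comm_same z x y
    show KK E y z * E x y = E x y * KK E y z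
    unfold KK
    have h4 : E (nv y) z * E x y = E x y * E x z * E (nv y) z := by
      rw [← h2]; rw [mul_assoc, sq, mul_one]
    have h5 : E y z * E x y = E x y * E x z * E y z := by
      rw [← h1]; rw [mul_assoc, sq, mul_one]
    calc E y z * E (nv y) z * E x y = E y z * (E (nv y) z * E x y) := by group
      _ = (E y z * E x y) * E x z * E (nv y) z := by rw [h4]; group
      _ = E x y * E x z * (E y z * E x z) * E (nv y) z := by rw [h5]; group
      _ = E x y * (E x z * E x z) * E y z * E (nv y) z := by rw [← h3.eq]; group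
      _ = E x y * (E y z * E (nv y) z) := by rw [sq]; group
  · unfold KK
    exact (cm R sq (Ne.symm hwy) hxz).mul_left (cm R sq (by simpa using Ne.symm hwy) hxz)

lemma E_KK_conj {y z w : Lt α} (h1 : y.1 ≠ z.1) (h2 : y.1 ≠ w.1) (h3 : z.1 ≠ w.1) :
    E z w * KK E y z * E z w = KK E y z * KK E y w := by
  have k1 := conj1 R sq (x := y) (y := z) (z := w) h1 h2 h3
  have k2 := conj1 R sq (x := nv y) (y := z) (z := w) (by simpa using h1) (by simpa using h2) h3
  have k3 : Commute (E y w) (E (nv y) z) := cm R sq h1 (by simpa using h2)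
  unfold KK
  calc E z w * (E y z * E (nv y) z) * E z w
      = E z w * E y z * 1 * E (nv y) z * E z w := by group
    _ = (E z w * E y z * E z w) * (E z w * E (nv y) z * E z w) := by rw [← sq z w]; group
    _ = E y z * (E y w * E (nv y) z) * E (nv y) w := by rw [k1, k2]; group
    _ = E y z * E (nv y) z * (E y w * E (nv y) w) := by rw [k3.eq]; group

lemma KK_comm {y z w : Lt α} (h1 : y.1 ≠ z.1) (h2 : y.1 ≠ w.1) :
    Commute (KK E y z) (KK E y w) := by
  have h1' : (nv y).1 ≠ z.1 := by simpa using h1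
  have h2' : (nv y).1 ≠ w.1 := by simpa using h2
  unfold KK
  exact ((cm R sq h2 h1).mul_left (cm R sq h2' h1)).mul_right
    ((cm R sq h2 h1').mul_left (cm R sq h2' h1'))

lemma sg_eq {a b : Lt α} (h : a.1 ≠ b.1) :
    E a b * E b a * E a b = KK E a b * W (sg a b) := by
  have h4 := R.e4 a b (sg a b) h sg_left (sg_right h) (fun c => sg_other)
  have h5 : E b a = E (nv a) b * W (sg a b) * E a b := by
    rw [mul_assoc, ← h4, ← mul_assoc, sq, one_mul]
  unfold KK
  calc E a b * E b a * E a b = E a b * E (nv a) b * W (sg a b) * (E a b * E a b) := by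
        rw [h5]; group
    _ = _ := by rw [sq, mul_one]

theorem KK_eq {a b c : Lt α} (hab : a.1 ≠ b.1) (hac : a.1 ≠ c.1) (hbc : b.1 ≠ c.1) :
    KK E a c = KK E b c := by
  have hba : b.1 ≠ a.1 := Ne.symm hab
  have s1 := sg_eq R sq hab
  have s2 : E a b * E b c * E a b = E a c * E b c := by
    have := R.e3c a b c hab hac hbc
    rwa [Einv sq] at this
  have s3 : Commute (E b a) (E b c) := cm R sq hbc hba
  have s3' : Commute (E a b * E b a * E a b) (E a b * E b c * E a b) := by
    show E a b * E b a * E a b * (E a b * E b c * E a b) =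
      E a b * E b c * E a b * (E a b * E b a * E a b)
    calc E a b * E b a * E a b * (E a b * E b c * E a b)
        = E a b * E b a * (E a b * E a b) * E b c * E a b := by group
      _ = E a b * (E b a * E b c) * E a b := by rw [sq]; group
      _ = E a b * E b c * 1 * E b a * E a b := by rw [s3.eq]; group
      _ = _ := by rw [← sq a b]; group
  rw [s1, s2] at s3'
  have s4 : W (sg a b) * (E a c * E b c) * (W (sg a b))⁻¹ = E (nv b) c * E a c := by
    have t1 := R.e0 (sg a b) a c
    have t2 := R.e0 (sg a b) b c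
    rw [sg_left, sg_other (Ne.symm hac) (Ne.symm hbc)] at t1
    rw [sg_right hab, sg_other (Ne.symm hac) (Ne.symm hbc)] at t2
    rw [← t1, ← t2]; group
  have s5 : KK E a b * (E (nv b) c * E a c) * KK E a b = E a c * E b c := by
    have : (KK E a b * W (sg a b)) * (E a c * E b c) * (KK E a b * W (sg a b))⁻¹ =
        E a c * E b c := by
      rw [s3'.eq]; group
    rw [← this, ← s4, mul_inv_rev]
    have hk : (KK E a b)⁻¹ = KK E a b := inv_eq_of_mul_eq_one_left (KK_sq R sq a b)
    rw [hk]; group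
  have s6 : Commute (KK E a b) (E a c) := KK_E_comm R sq hab hac hab
  have s7 : E (nv b) c * KK E a b * E (nv b) c = KK E a b * KK E a c := by
    have := E_KK_conj R sq (y := a) (z := nv b) (w := c) (by simpa using hab) hac
      (by simpa using hbc)
    rwa [KK_congr R sq (y := a) (z := nv b) (y' := a) (z' := b) rfl (by simp)] at this
  have s8 : KK E a b * E (nv b) c = E (nv b) c * (KK E a b * KK E a c) := by
    rw [← s7]
    calc KK E a b * E (nv b) c = 1 * KK E a b * E (nv b) c := by group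
      _ = _ := by rw [← sq (nv b) c]; group
  have s9 : Commute (KK E a b) (KK E a c) := KK_comm R sq hab hac
  have s10 : Commute (E a c) (E (nv b) c) := R.comm_same c _ _
  have s11 : Commute (E a c) (KK E a c) := by
    unfold KK
    exact (R.comm_same c _ _).mul_right (R.comm_same c _ _)
  have s12 : KK E a b * (E (nv b) c * E a c) * KK E a b = E a c * (E (nv b) c * KK E a c) := by
    calc KK E a b * (E (nv b) c * E a c) * KK E a b
        = (KK E a b * E (nv b) c) * (E a c * KK E a b) := by group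
      _ = E (nv b) c * (KK E a b * KK E a c) * (KK E a b * E a c) := by rw [s8, s6.eq]
      _ = E (nv b) c * (KK E a c * (KK E a b * KK E a b)) * E a c := by rw [s9.eq]; group
      _ = E (nv b) c * (KK E a c * E a c) := by rw [KK_sq R sq]; group
      _ = (E (nv b) c * E a c) * KK E a c := by rw [← s11.eq]; group
      _ = _ := by rw [← s10.eq]; group
  rw [s12] at s5
  have s13 := mul_left_cancel s5
  have s14 : KK E b c = E (nv b) c * E b c := by
    unfold KK
    exact (R.comm_same c _ _).eq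
  rw [s14, ← s13, ← mul_assoc, sq, one_mul]

/-- The subgroup generated by the partial conjugations. -/
def N1 (E : Lt α → Lt α → P) : Subgroup P :=
  Subgroup.closure {q | ∃ y z : Lt α, y.1 ≠ z.1 ∧ q = KK E y z}

lemma N1_E (h3 : ∀ i j : α, ∃ k, k ≠ i ∧ k ≠ j) {x w : Lt α} (hxw : x.1 ≠ w.1) {u : P}
    (hu : u ∈ N1 E) : E x w * u * E x w ∈ N1 E := by
  unfold N1 at hu
  induction hu using Subgroup.closure_induction with
  | mem q hq =>
    obtain ⟨y, z, hyz, rfl⟩ := hq
    by_cases hxz : x.1 = z.1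
    · obtain ⟨k, hk1, hk2⟩ := h3 x.1 w.1
      have h4 : KK E y z = KK E (k, true) x := by
        by_cases hyk : y.1 = k
        · exact KK_congr R sq hyk hxz.symm
        · rw [KK_eq R sq (a := y) (b := (k, true)) (c := z) hyk hyz (by rw [← hxz]; exact hk1)]
          exact KK_congr R sq rfl hxz.symm
      rw [h4, E_KK_conj R sq (y := (k, true)) (z := x) (w := w) hk1 hk2 hxw]
      exact mul_mem (Subgroup.subset_closure ⟨_, _, hk1, rfl⟩)
        (Subgroup.subset_closure ⟨_, _, hk2, rfl⟩)
    · rw [← (KK_E_comm R sq hyz hxw hxz).eq, mul_assoc, sq, mul_one]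
      exact Subgroup.subset_closure ⟨_, _, hyz, rfl⟩
  | one => rw [mul_one, sq]; exact one_mem _
  | mul a b _ _ h1 h2 =>
    have : E x w * (a * b) * E x w = (E x w * a * E x w) * (E x w * b * E x w) := by
      calc E x w * (a * b) * E x w = E x w * a * 1 * (b * E x w) := by group
        _ = _ := by rw [← sq x w]; group
    rw [this]; exact mul_mem h1 h2
  | inv a _ h1 =>
    have : E x w * a⁻¹ * E x w = (E x w * a * E x w)⁻¹ := by
      rw [mul_inv_rev, mul_inv_rev, Einv sq, mul_assoc]
    rw [this]; exact inv_mem h1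

lemma N1_W {σ : SP α} {u : P} (hu : u ∈ N1 E) : W σ * u * (W σ)⁻¹ ∈ N1 E := by
  unfold N1 at hu
  induction hu using Subgroup.closure_induction with
  | mem q hq =>
    obtain ⟨y, z, hyz, rfl⟩ := hq
    have h1 := R.e0 σ y z
    have h2 := R.e0 σ (nv y) z
    have : W σ * KK E y z * (W σ)⁻¹ = KK E ((σ : Equiv.Perm (Lt α)) y)
        ((σ : Equiv.Perm (Lt α)) z) := by
      unfold KK
      rw [← SP.map_nv, ← h1, ← h2]; group
    rw [this]
    refine Subgroup.subset_closure ⟨_, _, ?_, rfl⟩
    rw [ix_eq, ix_eq]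
    exact fun h => hyz (ix_inj σ h)
  | one => simp
  | mul x y _ _ h1 h2 =>
    have : W σ * (x * y) * (W σ)⁻¹ = (W σ * x * (W σ)⁻¹) * (W σ * y * (W σ)⁻¹) := by group
    rw [this]; exact mul_mem h1 h2
  | inv x _ h1 =>
    have : W σ * x⁻¹ * (W σ)⁻¹ = (W σ * x * (W σ)⁻¹)⁻¹ := by group
    rw [this]; exact inv_mem h1

lemma N1_normal (h3 : ∀ i j : α, ∃ k, k ≠ i ∧ k ≠ j)
    (gen : ∀ q : P, q ∈ Subgroup.closure (Set.range W ∪ {q | ∃ x a : Lt α, x.1 ≠ a.1 ∧ q = E x a})) :
    (N1 E).Normal := by
  constructor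
  intro u hu g
  have hg := gen g
  induction hg using Subgroup.closure_induction'' generalizing u with
  | mem x hx =>
    rcases hx with ⟨σ, rfl⟩ | ⟨x, a, hxa, rfl⟩
    · exact N1_W R sq hu
    · rw [Einv sq]; exact N1_E R sq h3 hxa hu
  | inv_mem x hx =>
    rcases hx with ⟨σ, rfl⟩ | ⟨x, a, hxa, rfl⟩
    · rw [← map_inv]; exact N1_W R sq hu
    · rw [Einv sq, Einv sq]; exact N1_E R sq h3 hxa hu
  | one => simpa using hu
  | mul x y _ _ h1 h2 =>
    have : x * y * u * (x * y)⁻¹ = x * (y * u * y⁻¹) * x⁻¹ := by group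
    rw [this]
    exact h1 _ (h2 _ hu)

end

/-- From the relations to the abstract data. -/
lemma toDat {α P : Type} [DecidableEq α] [Fintype α] [Group P] {W : SP α →* P}
    {E : Lt α → Lt α → P} (R : Rel W E) (sq : ∀ x a, E x a * E x a = 1)
    (hK : ∀ y z : Lt α, y.1 ≠ z.1 → KK E y z = 1) (m : P →* Equiv.Perm (α → ZMod 2))
    (hmw : ∀ (σ : SP α) v i, m (W σ) v (ix σ i) = v i)
    (hme : ∀ i j v, i ≠ j → m (E (i, true) (j, true)) v = Function.update v i (v i + v j)) :
    Dat W (fun i j => E (i, true) (j, true)) m := by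
  have hE : ∀ x a x' a' : Lt α, x.1 ≠ a.1 → x.1 = x'.1 → a.1 = a'.1 → E x a = E x' a' := by
    intro x a x' a' h h1 h2
    rw [E_congr R sq h2]
    rcases fst_eq_iff.1 h1 with rfl | rfl
    · rfl
    · have := hK x' a' (by rw [← h2]; simpa using h)
      unfold KK at this
      rw [← Einv sq x' a']
      exact (inv_eq_of_mul_eq_one_right this).symm
  refine ⟨?_, ?_, ?_, ?_, ?_, hmw, hme⟩
  · intro σ i j hij
    rw [R.e0]
    refine hE _ _ _ _ ?_ ?_ ?_
    · rw [ix_eq, ix_eq]; exact fun h => hij (ix_inj σ h)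
    · rw [ix_eq]
    · rw [ix_eq]
  · intro i j _; exact sq _ _
  · intro i j k l _ _ h1 h2
    exact cm R sq h1 h2
  · intro i j k h1 h2 h3
    exact conj1 R sq h1 h2 h3
  · intro i j hij
    have := sg_eq R sq (a := (i, true)) (b := (j, true)) hij
    rw [hK _ _ hij, one_mul] at this
    exact this

end Pool.Agent.H846R3.Sq
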