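import Pool.Agent.H846R3.Rels

set_option autoImplicit false
set_option linter.unusedSectionVars false

namespace Pool.Agent.H846R3.Sq
open Pool.Agent.Helper156.OF

/-! ### The action modulo two -/

section mm

variable {α : Type}

/-- The homomorphism to `ZMod 2` given by a vector. -/
def fv (v : α → ZMod 2) : FreeGroup α →* Multiplicative (ZMod 2) :=
  FreeGroup.lift (fun i => Multiplicative.ofAdd (v i))

lemma fv_of (v : α → ZMod 2) (i : α) : fv v (FreeGroup.of i) = Multiplicative.ofAdd (v i) := by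
  simp [fv]

lemma fv_gl (v : α → ZMod 2) (x : Lt α) : fv v (gl x) = Multiplicative.ofAdd (v x.1) := by
  obtain ⟨i, b⟩ := x
  cases b
  · have : ((i, false) : Lt α) = nv (i, true) := rfl
    rw [this, gl_nv, map_inv, gl_true, fv_of]
    show (Multiplicative.ofAdd (v i))⁻¹ = Multiplicative.ofAdd (v i)
    generalize v i = t
    revert t
    decide
  · exact fv_of v i

/-- The action on vectors mod 2. -/
def mf (ψ : MulAut (FreeGroup α)) (v : α → ZMod 2) : α → ZMod 2 :=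
  fun i => Multiplicative.toAdd (fv v (ψ⁻¹ (FreeGroup.of i)))

lemma fv_mf (ψ : MulAut (FreeGroup α)) (v : α → ZMod 2) (x : FreeGroup α) :
    fv (mf ψ v) x = fv v (ψ⁻¹ x) := by
  have : fv (mf ψ v) = (fv v).comp ((ψ⁻¹ : MulAut (FreeGroup α)) : FreeGroup α →* FreeGroup α) := by
    ext i
    rw [fv_of]
    rfl
  rw [this]
  rfl

lemma mf_one (v : α → ZMod 2) : mf 1 v = v := by
  funext i
  simp [mf, fv_of]

lemma mf_mul (φ ψ : MulAut (FreeGroup α)) (v : α → ZMod 2) : mf (φ * ψ) v = mf φ (mf ψ v) := by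
  funext i
  show Multiplicative.toAdd (fv v ((φ * ψ)⁻¹ (FreeGroup.of i))) =
    Multiplicative.toAdd (fv (mf ψ v) (φ⁻¹ (FreeGroup.of i)))
  rw [fv_mf, mul_inv_rev]
  rfl

/-- The action on vectors mod 2 as a homomorphism. -/
def mm : MulAut (FreeGroup α) →* Equiv.Perm (α → ZMod 2) where
  toFun ψ := ⟨mf ψ, mf ψ⁻¹, fun v => by rw [← mf_mul, inv_mul_cancel, mf_one],
    fun v => by rw [← mf_mul, mul_inv_cancel, mf_one]⟩
  map_one' := by ext1 v; exact mf_one v
  map_mul' φ ψ := by ext1 v; exact mf_mul φ ψ v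

lemma mm_apply (ψ : MulAut (FreeGroup α)) (v : α → ZMod 2) (i : α) :
    mm ψ v i = Multiplicative.toAdd (fv v (ψ⁻¹ (gl (i, true)))) := rfl

variable [DecidableEq α]

lemma mm_toAut (σ : SP α) (v : α → ZMod 2) (i : α) : mm (toAut σ) v (ix σ i) = v i := by
  rw [mm_apply, ← map_inv, toAut_gl, fv_gl, ix_eq]
  show v (ix σ⁻¹ (ix σ i)) = v i
  rw [ix_inv_ix]

lemma eAut_inv (x a : Lt α) : (eAut x a)⁻¹ = eAut x (nv a) := (rel_aut.e1 x a).symm

lemma mm_eAut {x a : Lt α} (h : x.1 ≠ a.1) (v : α → ZMod 2) :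
    mm (eAut x a) v = Function.update v x.1 (v x.1 + v a.1) := by
  funext k
  rw [mm_apply, eAut_inv, eAut_um x (nv a) (by simpa using h), (fv v).map_mul, (fv v).map_mul,
    (fv v).map_inv, fv_gl]
  by_cases hk : k = x.1
  · subst hk
    rw [Function.update_self]
    obtain ⟨i, b⟩ := x
    cases b
    · have h1 : ((i, true) : Lt α) ≠ (i, false) := by simp
      have h2 : nv ((i, true) : Lt α) = (i, false) := rfl
      simp only [um, h1, h2, if_true, if_false, map_one, mul_one, fv_gl, nv_fst]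
      show -(v a.1) + v i = v i + v a.1
      rw [ZMod.neg_eq_self_mod_two, add_comm]
    · have h2 : nv ((i, true) : Lt α) ≠ (i, true) := nv_ne _
      simp only [um, h2, if_true, if_false, map_one, inv_one, one_mul, fv_gl, nv_fst]
      rfl
  · rw [Function.update_of_ne hk]
    have h1 : ((k, true) : Lt α) ≠ x := fun h => hk (by rw [← h])
    have h2 : nv ((k, true) : Lt α) ≠ x := fun h => hk (by rw [← h]; rfl)
    simp only [um, h1, h2, if_false, map_one, inv_one, one_mul, mul_one]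
    rfl

end mm

/-! ### Signs of the actions on homomorphisms to the symmetric group of degree three -/

section sgn

variable {α : Type} [Fintype α]

/-- abbreviation for `S_3` -/
abbrev S3 := Equiv.Perm (Fin 3)

/-- Homomorphisms to `S_3` with prescribed sign. -/
def X (χ : FreeGroup α →* ℤˣ) : Type :=
  {f : FreeGroup α →* S3 // ∀ x, Equiv.Perm.sign (f x) = χ x}

/-- Elements of `S_3` with prescribed sign. -/
abbrev Y (u : ℤˣ) : Type := {g : S3 // Equiv.Perm.sign g = u}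

/-- coordinates -/
def evX (χ : FreeGroup α →* ℤˣ) : X χ ≃ (∀ k : α, Y (χ (FreeGroup.of k))) where
  toFun f k := ⟨f.1 (FreeGroup.of k), f.2 _⟩
  invFun v := ⟨FreeGroup.lift (fun k => (v k).1), fun x => by
    have : (Equiv.Perm.sign : S3 →* ℤˣ).comp (FreeGroup.lift (fun k => (v k).1)) = χ := by
      ext k
      simp [(v k).2]
    exact DFunLike.congr_fun this x⟩
  left_inv f := by
    apply Subtype.ext
    ext k
    simp
  right_inv v := by
    funext k
    apply Subtype.ext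
    simp

noncomputable instance [DecidableEq α] (χ : FreeGroup α →* ℤˣ) : Fintype (X χ) :=
  Fintype.ofEquiv _ (evX χ).symm

noncomputable instance (χ : FreeGroup α →* ℤˣ) : DecidableEq (X χ) := Classical.decEq _

/-- Automorphisms acting trivially mod 2. -/
def G2 (α : Type) : Subgroup (MulAut (FreeGroup α)) where
  carrier := {ψ | ∀ (χ : FreeGroup α →* ℤˣ) x, χ (ψ x) = χ x}
  mul_mem' := by
    intro a b ha hb χ x
    rw [MulAut.mul_apply, ha, hb]
  one_mem' := fun χ x => rfl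
  inv_mem' := by
    intro a ha χ x
    have := ha χ (a⁻¹ x)
    rw [MulAut.apply_inv_self] at this
    exact this.symm

lemma G2_inv {ψ : MulAut (FreeGroup α)} (h : ψ ∈ G2 α) (χ : FreeGroup α →* ℤˣ) (x) :
    χ (ψ⁻¹ x) = χ x := (inv_mem h) χ x

/-- The action on `X χ`. -/
def pm (χ : FreeGroup α →* ℤˣ) : G2 α →* Equiv.Perm (X χ) where
  toFun ψ :=
    { toFun := fun f => ⟨f.1.comp ((ψ.1⁻¹ : MulAut (FreeGroup α)) : FreeGroup α →* FreeGroup α),
        fun x => by
          show Equiv.Perm.sign (f.1 (ψ.1⁻¹ x)) = χ x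
          rw [f.2, G2_inv ψ.2]⟩
      invFun := fun f => ⟨f.1.comp ((ψ.1 : MulAut (FreeGroup α)) : FreeGroup α →* FreeGroup α),
        fun x => by
          show Equiv.Perm.sign (f.1 (ψ.1 x)) = χ x
          rw [f.2, ψ.2]⟩
      left_inv := fun f => by
        apply Subtype.ext
        ext1 x
        show f.1 (ψ.1⁻¹ (ψ.1 (FreeGroup.of x))) = _
        rw [MulAut.inv_apply_self]
      right_inv := fun f => by
        apply Subtype.ext
        ext1 x
        show f.1 (ψ.1 (ψ.1⁻¹ (FreeGroup.of x))) = _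
        rw [MulAut.apply_inv_self] }
  map_one' := by
    ext1 f
    apply Subtype.ext
    ext1 x
    rfl
  map_mul' := by
    intro a b
    ext1 f
    apply Subtype.ext
    ext1 x
    show f.1 ((a.1 * b.1)⁻¹ (FreeGroup.of x)) = f.1 (b.1⁻¹ (a.1⁻¹ (FreeGroup.of x)))
    rw [mul_inv_rev]
    rfl

lemma pm_apply (χ : FreeGroup α →* ℤˣ) (ψ : G2 α) (f : X χ) (x : FreeGroup α) :
    (pm χ ψ f).1 x = f.1 (ψ.1⁻¹ x) := rfl

variable [DecidableEq α]

/-- `SG χ ψ u`: `ψ` acts on `X χ` with sign `u`. -/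
def SG (χ : FreeGroup α →* ℤˣ) (ψ : MulAut (FreeGroup α)) (u : ℤˣ) : Prop :=
  ∃ h : ψ ∈ G2 α, Equiv.Perm.sign (pm χ ⟨ψ, h⟩) = u

lemma SG.mul {χ : FreeGroup α →* ℤˣ} {φ ψ : MulAut (FreeGroup α)} {u v : ℤˣ} (h1 : SG χ φ u)
    (h2 : SG χ ψ v) : SG χ (φ * ψ) (u * v) := by
  obtain ⟨h1, rfl⟩ := h1
  obtain ⟨h2, rfl⟩ := h2
  refine ⟨mul_mem h1 h2, ?_⟩
  rw [← map_mul, ← map_mul]
  rfl

lemma SG.inv {χ : FreeGroup α →* ℤˣ} {φ : MulAut (FreeGroup α)} {u : ℤˣ} (h1 : SG χ φ u) :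
    SG χ φ⁻¹ u⁻¹ := by
  obtain ⟨h1, rfl⟩ := h1
  refine ⟨inv_mem h1, ?_⟩
  rw [← map_inv, ← map_inv]
  rfl

lemma SG.uniq {χ : FreeGroup α →* ℤˣ} {φ : MulAut (FreeGroup α)} {u v : ℤˣ} (h1 : SG χ φ u)
    (h2 : SG χ φ v) : u = v := by
  obtain ⟨h1, rfl⟩ := h1
  obtain ⟨h2, rfl⟩ := h2
  rfl

lemma SG.one (χ : FreeGroup α →* ℤˣ) : SG χ 1 1 := by
  refine ⟨one_mem _, ?_⟩
  have : (⟨1, one_mem _⟩ : G2 α) = 1 := rfl
  rw [this, map_one, map_one]

/-- triviality of the action -/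
lemma SG.of_triv {χ : FreeGroup α →* ℤˣ} {φ : MulAut (FreeGroup α)} (h : φ ∈ G2 α)
    (hf : ∀ f : FreeGroup α →* S3, (∀ x, Equiv.Perm.sign (f x) = χ x) →
      ∀ k, f (φ (FreeGroup.of k)) = f (FreeGroup.of k)) : SG χ φ 1 := by
  refine ⟨h, ?_⟩
  have h1 : pm χ ⟨φ, h⟩ = 1 := by
    rw [← inv_inj, inv_one, ← map_inv]
    ext1 f
    apply Subtype.ext
    ext1 k
    show f.1 ((φ⁻¹)⁻¹ (FreeGroup.of k)) = f.1 (FreeGroup.of k)
    rw [inv_inv]
    exact hf f.1 f.2 k
  rw [h1, map_one]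

lemma SG.of_cube {χ : FreeGroup α →* ℤˣ} {φ : MulAut (FreeGroup α)} (h : φ ∈ G2 α)
    (h3 : SG χ (φ * φ * φ) 1) : SG χ φ 1 := by
  have h1 : SG χ φ (Equiv.Perm.sign (pm χ ⟨φ, h⟩)) := ⟨h, rfl⟩
  have h2 := ((h1.mul h1).mul h1).uniq h3
  have : Equiv.Perm.sign (pm χ ⟨φ, h⟩) = 1 := by
    revert h2
    generalize Equiv.Perm.sign (pm χ ⟨φ, h⟩) = u
    revert u
    decide
  rwa [this] at h1

/-- conjugation -/
lemma SG.conj {χ : FreeGroup α →* ℤˣ} {φ : MulAut (FreeGroup α)} {u : ℤˣ}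
    (g : MulAut (FreeGroup α))
    (h : SG (χ.comp (g : FreeGroup α →* FreeGroup α)) φ u) : SG χ (g * φ * g⁻¹) u := by
  obtain ⟨h, rfl⟩ := h
  have hm : g * φ * g⁻¹ ∈ G2 α := by
    intro χ' x
    have := h (χ'.comp (g : FreeGroup α →* FreeGroup α)) (g⁻¹ x)
    have h2 : χ' (g (φ (g⁻¹ x))) = χ' (g (g⁻¹ x)) := this
    rw [MulAut.apply_inv_self] at h2
    exact h2
  refine ⟨hm, ?_⟩
  let c : X χ ≃ X (χ.comp (g : FreeGroup α →* FreeGroup α)) :=
    { toFun := fun f => ⟨f.1.comp (g : FreeGroup α →* FreeGroup α), fun x => f.2 (g x)⟩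
      invFun := fun f => ⟨f.1.comp ((g⁻¹ : MulAut (FreeGroup α)) : FreeGroup α →* FreeGroup α),
        fun x => by
          have := f.2 (g⁻¹ x)
          have h2 : χ (g (g⁻¹ x)) = χ x := by rw [MulAut.apply_inv_self]
          rw [← h2]
          exact this⟩
      left_inv := fun f => by
        apply Subtype.ext
        ext1 x
        show f.1 (g (g⁻¹ (FreeGroup.of x))) = _
        rw [MulAut.apply_inv_self]
      right_inv := fun f => by
        apply Subtype.ext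
        ext1 x
        show f.1 (g⁻¹ (g (FreeGroup.of x))) = _
        rw [MulAut.inv_apply_self] }
  have key : pm (χ.comp (g : FreeGroup α →* FreeGroup α)) ⟨φ, h⟩ =
      c.permCongr (pm χ ⟨g * φ * g⁻¹, hm⟩) := by
    ext1 f
    apply Subtype.ext
    ext1 x
    show f.1 (φ⁻¹ (FreeGroup.of x)) = f.1 (g⁻¹ ((g * φ * g⁻¹)⁻¹ (g (FreeGroup.of x))))
    congr 1
    rw [← MulAut.mul_apply, ← MulAut.mul_apply]
    congr 1
    group
  rw [key, Equiv.Perm.sign_permCongr]

/-- the subgroup of elements with trivial signs -/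
def KS (α : Type) [Fintype α] [DecidableEq α] : Subgroup (MulAut (FreeGroup α)) where
  carrier := {φ | ∀ χ, SG χ φ 1}
  mul_mem' := by
    intro a b ha hb χ
    have := (ha χ).mul (hb χ)
    rwa [mul_one] at this
  one_mem' := SG.one
  inv_mem' := by
    intro a ha χ
    have := (ha χ).inv
    rwa [inv_one] at this

instance : (KS α).Normal := ⟨fun _ h g _ => SG.conj g (h _)⟩

lemma S3_six (g : S3) : g ^ 6 = 1 := by
  have h := pow_card_eq_one (x := g)
  rw [Fintype.card_perm, Fintype.card_fin] at h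
  exact h

lemma card_Y (u : ℤˣ) : Fintype.card (Y u) = 3 := by
  rcases Int.units_eq_one_or u with rfl | rfl
  · decide
  · decide

/-- inversion on elements of given sign -/
def invY (u : ℤˣ) : Equiv.Perm (Y u) where
  toFun g := ⟨g.1⁻¹, by rw [Equiv.Perm.sign_inv]; exact g.2⟩
  invFun g := ⟨g.1⁻¹, by rw [Equiv.Perm.sign_inv]; exact g.2⟩
  left_inv g := by apply Subtype.ext; exact inv_inv _
  right_inv g := by apply Subtype.ext; exact inv_inv _

lemma sign_invY : Equiv.Perm.sign (invY 1) = -1 := by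
  have h : invY 1 = Equiv.swap (⟨finRotate 3, by decide⟩ : Y 1) ⟨(finRotate 3)⁻¹, by decide⟩ := by
    decide
  rw [h, Equiv.Perm.sign_swap]
  decide

lemma SG.neg {χ : FreeGroup α →* ℤˣ} {φ : MulAut (FreeGroup α)} (h : φ ∈ G2 α) (i : α)
    (hi : χ (FreeGroup.of i) = 1)
    (hf : ∀ f : FreeGroup α →* S3, (∀ x, Equiv.Perm.sign (f x) = χ x) →
      ∀ k, f (φ⁻¹ (FreeGroup.of k)) = if k = i then (f (FreeGroup.of i))⁻¹ else f (FreeGroup.of k)) :
    SG χ φ (-1) := by
  refine ⟨h, ?_⟩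
  let e : X χ ≃ Y (χ (FreeGroup.of i)) × (∀ k : {k // k ≠ i}, Y (χ (FreeGroup.of k.1))) :=
    (evX χ).trans (Equiv.piSplitAt i (fun k => Y (χ (FreeGroup.of k))))
  have key : pm χ ⟨φ, h⟩ = e.symm.permCongr
      (Equiv.prodCongrLeft (fun _ => invY (χ (FreeGroup.of i)))) := by
    ext1 f
    rw [Equiv.permCongr_apply, Equiv.eq_symm_apply]
    refine Prod.ext ?_ ?_
    · apply Subtype.ext
      show f.1 (φ⁻¹ (FreeGroup.of i)) = (f.1 (FreeGroup.of i))⁻¹
      rw [hf f.1 f.2, if_pos rfl]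
    · funext k
      apply Subtype.ext
      show f.1 (φ⁻¹ (FreeGroup.of k.1)) = f.1 (FreeGroup.of k.1)
      rw [hf f.1 f.2, if_neg k.2]
  rw [key, Equiv.Perm.sign_permCongr, Equiv.Perm.sign_prodCongrLeft, Finset.prod_const,
    Finset.card_univ, Fintype.card_pi]
  have h1 : (∏ k : {k // k ≠ i}, Fintype.card (Y (χ (FreeGroup.of k.1)))) =
      3 ^ (Fintype.card {k // k ≠ i}) := by
    rw [Finset.prod_congr rfl (fun k _ => card_Y _), Finset.prod_const, Finset.card_univ]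
  rw [h1, hi, sign_invY]
  exact Odd.neg_one_pow (Odd.pow (by decide))

end sgn

end Pool.Agent.H846R3.Sq
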